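import Pool.Agent.V11330.PE.Ent

set_option autoImplicit false

open Set Filter Topology MeasureTheory ProbabilityTheory
open scoped NNReal ENNReal

namespace Pool.Agent.V11330.PE

/-- the relative order of the values of `y` when the points are listed by increasing `x` -/
noncomputable def pat {n : ℕ} (x y : Fin n → ℝ) : Equiv.Perm (Fin n) := (Tuple.sort (y ∘ Tuple.sort x))⁻¹

/-- random points with a cell structure: `D` cells, and `q × q` subcells in every cell -/
structure Cells {S : Type*} [MeasurableSpace S] (P : Measure S) (X Y : S → ℝ) (D q : ℕ)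
    (v : S → Fin D) (a b : S → Fin q) (g : Equiv.Perm (Fin D)) : Prop where
  mX : Measurable X
  mY : Measurable Y
  mv : Measurable v
  ma : Measurable a
  mb : Measurable b
  law : ∀ (u : Fin D) (i j : Fin q), P {s | v s = u ∧ a s = i ∧ b s = j} = 1 / (D * q * q)
  ordX : ∀ᵐ s ∂P, (q * (v s : ℕ) + (a s : ℕ) : ℝ) ≤ q * D * X s ∧
    q * D * X s < (q * (v s : ℕ) + (a s : ℕ) : ℝ) + 1
  ordY : ∀ᵐ s ∂P, (q * (g (v s) : ℕ) + (b s : ℕ) : ℝ) ≤ q * D * Y s ∧
    q * D * Y s < (q * (g (v s) : ℕ) + (b s : ℕ) : ℝ) + 1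

lemma measurable_sort {n : ℕ} {Ω : Type*} [MeasurableSpace Ω] {X : Fin n → Ω → ℝ}
    (hX : ∀ i, Measurable (X i)) (τ : Equiv.Perm (Fin n)) :
    MeasurableSet {ω | Tuple.sort (fun i => X i ω) = τ} := by
  have : {ω | Tuple.sort (fun i => X i ω) = τ} =
      (⋂ i, ⋂ j, {ω | i ≤ j → X (τ i) ω ≤ X (τ j) ω}) ∩
      (⋂ i, ⋂ j, {ω | i < j → X (τ i) ω = X (τ j) ω → τ i < τ j}) := by
    ext ω
    simp only [mem_ofPred_eq, mem_inter_iff, mem_iInter]
    rw [eq_comm, Tuple.eq_sort_iff]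
    exact Iff.rfl
  rw [this]
  refine MeasurableSet.inter ?_ ?_
  · refine MeasurableSet.iInter fun i => MeasurableSet.iInter fun j => ?_
    by_cases h : i ≤ j
    · simpa [h] using measurableSet_le (hX (τ i)) (hX (τ j))
    · simp [h]
  · refine MeasurableSet.iInter fun i => MeasurableSet.iInter fun j => ?_
    by_cases h : i < j
    · by_cases h' : τ i < τ j
      · simp [h']
      · have : {ω | i < j → X (τ i) ω = X (τ j) ω → τ i < τ j} = {ω | X (τ i) ω = X (τ j) ω}ᶜ := by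
          ext ω; simp [h, h']
        rw [this]
        exact (measurableSet_eq_fun (hX (τ i)) (hX (τ j))).compl
    · simp [h]

lemma measurable_pat {n : ℕ} {Ω : Type*} [MeasurableSpace Ω] {X Y : Fin n → Ω → ℝ}
    (hX : ∀ i, Measurable (X i)) (hY : ∀ i, Measurable (Y i)) (π : Equiv.Perm (Fin n)) :
    MeasurableSet {ω | pat (fun i => X i ω) (fun i => Y i ω) = π} := by
  have : {ω | pat (fun i => X i ω) (fun i => Y i ω) = π} =
      ⋃ τ : Equiv.Perm (Fin n), {ω | Tuple.sort (fun i => X i ω) = τ} ∩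
        {ω | Tuple.sort (fun i => Y (τ i) ω) = π⁻¹} := by
    ext ω
    simp only [mem_ofPred_eq, mem_iUnion, mem_inter_iff, exists_eq_left']
    unfold pat
    rw [inv_eq_iff_eq_inv]
    rfl
  rw [this]
  exact MeasurableSet.iUnion fun τ => (measurable_sort hX τ).inter
    (measurable_sort (fun i => hY (τ i)) π⁻¹)

section

variable {S : Type*} [MeasurableSpace S] {P : Measure S} [IsProbabilityMeasure P]
  {X Y : S → ℝ} {D q : ℕ} {v : S → Fin D} {a b : S → Fin q} {g : Equiv.Perm (Fin D)}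

/-- the sample measure -/
noncomputable abbrev smp (P : Measure S) (n : ℕ) : Measure (Fin n → S) := Measure.pi fun _ => P

lemma ae_smp {n : ℕ} {p : S → Prop} (h : ∀ᵐ s ∂P, p s) : ∀ᵐ ω ∂(smp P n), ∀ i, p (ω i) := by
  rw [ae_all_iff]
  intro i
  exact (measurePreserving_eval (fun _ => P) i).quasiMeasurePreserving.ae h

lemma pair_prob {n : ℕ} {i j : Fin n} (hij : i ≠ j) {A B : Set S} (hA : MeasurableSet A)
    (hB : MeasurableSet B) :
    (smp P n) {ω | ω i ∈ A ∧ ω j ∈ B} = P A * P B := by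
  have h0 : iIndepFun (fun (i : Fin n) (ω : Fin n → S) => ω i) (smp P n) :=
    iIndepFun_pi (X := fun _ => id) (μ := fun _ : Fin n => P) (fun _ => aemeasurable_id)
  have h1 := (h0.indepFun hij).measure_inter_preimage_eq_mul A B hA hB
  have h2 : {ω : Fin n → S | ω i ∈ A ∧ ω j ∈ B} =
      (fun ω : Fin n → S => ω i) ⁻¹' A ∩ (fun ω : Fin n → S => ω j) ⁻¹' B := rfl
  rw [h2, h1]
  have e1 := (measurePreserving_eval (fun _ : Fin n => P) i).measure_preimage hA.nullMeasurableSet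
  have e2 := (measurePreserving_eval (fun _ : Fin n => P) j).measure_preimage hB.nullMeasurableSet
  have e1' : (smp P n) ((fun ω : Fin n → S => ω i) ⁻¹' A) = P A := e1
  have e2' : (smp P n) ((fun ω : Fin n → S => ω j) ⁻¹' B) = P B := e2
  rw [e1', e2']

omit [IsProbabilityMeasure P] in
lemma Cells.pv (C : Cells P X Y D q v a b g) (hq : 0 < q) (u : Fin D) :
    P {s | v s = u} = 1 / D := by
  have h : {s | v s = u} = ⋃ p ∈ (Finset.univ : Finset (Fin q × Fin q)),
      {s | v s = u ∧ a s = p.1 ∧ b s = p.2} := by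
    ext s; simp
  rw [h, measure_biUnion_finset]
  · simp only [C.law, Finset.sum_const, Finset.card_univ, Fintype.card_prod, Fintype.card_fin,
      nsmul_eq_mul]
    have hD : (D : ℝ≥0∞) ≠ 0 := by
      have := u.pos; exact_mod_cast this.ne'
    have hq' : (q : ℝ≥0∞) ≠ 0 := by exact_mod_cast hq.ne'
    rw [one_div, one_div, mul_assoc, ENNReal.mul_inv (Or.inl hD) (Or.inl (by simp))]
    push_cast
    rw [mul_comm, mul_assoc, ENNReal.inv_mul_cancel (mul_ne_zero hq' hq')
      (ENNReal.mul_ne_top (by simp) (by simp)), mul_one]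
  · intro p _ p' _ hne
    rw [Function.onFun, Set.disjoint_left]
    rintro s ⟨_, h1, h2⟩ ⟨_, h3, h4⟩
    exact hne (Prod.ext (h1.symm.trans h3) (h2.symm.trans h4))
  · intro p _
    exact (C.mv (measurableSet_singleton u)).inter
      ((C.ma (measurableSet_singleton _)).inter (C.mb (measurableSet_singleton _)))

/-- codes are compatible with the order -/
lemma code_lt {D q c c' : ℕ} {x x' : ℝ} (hx : (c : ℝ) ≤ q * D * x ∧ q * D * x < (c : ℝ) + 1)
    (hx' : (c' : ℝ) ≤ q * D * x' ∧ q * D * x' < (c' : ℝ) + 1) (h : c < c') : x < x' := by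
  have h1 : (c : ℝ) + 1 ≤ c' := by exact_mod_cast h
  have h2 : (q * D : ℝ) * x < q * D * x' := by linarith [hx.2, hx'.1]
  exact lt_of_mul_lt_mul_left h2 (by positivity)

lemma code_le {D q c c' : ℕ} {x x' : ℝ} (hx : (c : ℝ) ≤ q * D * x ∧ q * D * x < (c : ℝ) + 1)
    (hx' : (c' : ℝ) ≤ q * D * x' ∧ q * D * x' < (c' : ℝ) + 1) (h : x ≤ x') : c ≤ c' := by
  by_contra hcon
  push Not at hcon
  exact absurd (code_lt hx' hx hcon) (not_lt.2 h)

/-- good points -/
def Good (X Y : S → ℝ) (D q : ℕ) (v : S → Fin D) (a b : S → Fin q) (g : Equiv.Perm (Fin D))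
    (s : S) : Prop :=
  (((q * (v s : ℕ) + (a s : ℕ) : ℕ) : ℝ) ≤ q * D * X s ∧
    q * D * X s < ((q * (v s : ℕ) + (a s : ℕ) : ℕ) : ℝ) + 1) ∧
  (((q * (g (v s) : ℕ) + (b s : ℕ) : ℕ) : ℝ) ≤ q * D * Y s ∧
    q * D * Y s < ((q * (g (v s) : ℕ) + (b s : ℕ) : ℕ) : ℝ) + 1)

omit [IsProbabilityMeasure P] in
lemma Cells.good (C : Cells P X Y D q v a b g) : ∀ᵐ s ∂P, Good X Y D q v a b g s := by
  filter_upwards [C.ordX, C.ordY] with s h1 h2
  unfold Good
  push_cast
  exact ⟨h1, h2⟩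

lemma code_div {q u i : ℕ} (hi : i < q) : (q * u + i) / q = u := by
  rw [Nat.mul_add_div (by omega), Nat.div_eq_of_lt hi, add_zero]

end

end Pool.Agent.V11330.PE
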