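import Pool.Agent.V11330.PE.Cell

set_option autoImplicit false

open Set Filter Topology MeasureTheory ProbabilityTheory
open scoped NNReal ENNReal

namespace Pool.Agent.V11330.PE

section digits

variable {d : ℕ}

/-- number with given digits -/
noncomputable def dval (t : ℕ → Fin d) : ℝ := ∑' k, ((t k : ℕ) : ℝ) / (d : ℝ) ^ (k + 1)

lemma dval_bound (hd : 2 ≤ d) (t : ℕ → Fin d) (k : ℕ) :
    ((t k : ℕ) : ℝ) / (d : ℝ) ^ (k + 1) ≤ ((d : ℝ) - 1) / (d : ℝ) ^ (k + 1) := by
  have h1 : ((t k : ℕ) : ℝ) + 1 ≤ d := by exact_mod_cast (t k).2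
  have h2 : (0 : ℝ) < d := by exact_mod_cast (by omega : 0 < d)
  gcongr
  linarith

lemma hasSum_top (hd : 2 ≤ d) :
    HasSum (fun k : ℕ => ((d : ℝ) - 1) / (d : ℝ) ^ (k + 1)) 1 := by
  have h2 : (1 : ℝ) < d := by exact_mod_cast (by omega : 1 < d)
  have h0 : (0 : ℝ) < d := by linarith
  have h3 := hasSum_geometric_of_lt_one (r := (d : ℝ)⁻¹) (by positivity) (inv_lt_one_of_one_lt₀ h2)
  have h4 := h3.mul_left (((d : ℝ) - 1) / d)
  have e1 : ((d : ℝ) - 1) / d * (1 - (d : ℝ)⁻¹)⁻¹ = 1 := by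
    have : (d : ℝ) - 1 ≠ 0 := by linarith
    field_simp
  rw [e1] at h4
  have e2 : (fun k : ℕ => ((d : ℝ) - 1) / (d : ℝ) ^ (k + 1)) =
      fun k : ℕ => ((d : ℝ) - 1) / d * (d : ℝ)⁻¹ ^ k := by
    funext k
    rw [inv_pow, pow_succ]
    field_simp
  rw [e2]
  exact h4

lemma summable_dval (hd : 2 ≤ d) (t : ℕ → Fin d) :
    Summable fun k => ((t k : ℕ) : ℝ) / (d : ℝ) ^ (k + 1) :=
  Summable.of_nonneg_of_le (fun k => by positivity) (dval_bound hd t) (hasSum_top hd).summable

lemma dval_nonneg (t : ℕ → Fin d) : 0 ≤ dval t := tsum_nonneg fun k => by positivity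

lemma dval_le_one (hd : 2 ≤ d) (t : ℕ → Fin d) : dval t ≤ 1 := by
  rw [← (hasSum_top hd).tsum_eq]
  exact Summable.tsum_le_tsum (dval_bound hd t) (summable_dval hd t) (hasSum_top hd).summable

lemma dval_lt_one (hd : 2 ≤ d) (t : ℕ → Fin d) (h : ∃ k, ((t k : ℕ)) + 1 < d) : dval t < 1 := by
  obtain ⟨k, hk⟩ := h
  rw [← (hasSum_top hd).tsum_eq]
  refine Summable.tsum_lt_tsum (i := k) (dval_bound hd t) ?_ (summable_dval hd t)
    (hasSum_top hd).summable
  have h1 : ((t k : ℕ) : ℝ) + 1 < d := by exact_mod_cast hk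
  have h2 : (0 : ℝ) < d := by exact_mod_cast (by omega : 0 < d)
  gcongr
  linarith

lemma dval_shift (hd : 2 ≤ d) (t : ℕ → Fin d) :
    d * dval t = (t 0 : ℕ) + dval (fun k => t (k + 1)) := by
  have h0 : (d : ℝ) ≠ 0 := by exact_mod_cast (by omega : d ≠ 0)
  unfold dval
  rw [(summable_dval hd t).tsum_eq_zero_add, mul_add, ← tsum_mul_left]
  congr 1
  · simp; field_simp
  · refine tsum_congr fun k => ?_
    rw [pow_succ (d : ℝ) (k + 1)]
    field_simp

/-- the integer formed by the first `m` digits -/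
def dnum (t : ℕ → Fin d) : ℕ → ℕ
  | 0 => 0
  | m + 1 => d * dnum t m + t m

lemma dval_num (hd : 2 ≤ d) (t : ℕ → Fin d) (m : ℕ) :
    (d : ℝ) ^ m * dval t = dnum t m + dval (fun k => t (k + m)) := by
  induction m with
  | zero => simp [dnum]
  | succ m ih =>
    have h1 := dval_shift hd (fun k => t (k + m))
    simp only [zero_add] at h1
    have e : (fun k => t (k + 1 + m)) = fun k => t (k + (m + 1)) := by
      funext k; congr 1; ring
    rw [e] at h1
    rw [pow_succ, mul_comm ((d : ℝ) ^ m) d, mul_assoc, ih, mul_add, h1]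
    simp only [dnum]
    push_cast
    ring

/-- the cell of level `m` -/
def dcell (m : ℕ) (t : ℕ → Fin d) : Fin (d ^ m) :=
  finFunctionFinEquiv fun i : Fin m => t (m - 1 - i)

lemma dcell_val (m : ℕ) (t : ℕ → Fin d) : (dcell m t : ℕ) = dnum t m := by
  unfold dcell
  rw [finFunctionFinEquiv_apply]
  induction m with
  | zero => simp [dnum]
  | succ m ih =>
    rw [Fin.sum_univ_succ]
    simp only [dnum, Fin.val_zero, pow_zero, mul_one, Fin.val_succ]
    rw [← ih, Finset.mul_sum, add_comm]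
    congr 1
    refine Finset.sum_congr rfl fun i _ => ?_
    have : m + 1 - 1 - (i + 1 : ℕ) = m - 1 - i := by omega
    rw [this, pow_succ]
    ring

/-- the permutation of the cells of level `m` induced by a permutation of the digits -/
def gperm (σ : Equiv.Perm (Fin d)) (m : ℕ) : Equiv.Perm (Fin (d ^ m)) :=
  finFunctionFinEquiv.symm.trans ((Equiv.piCongrRight fun _ : Fin m => σ).trans finFunctionFinEquiv)

lemma gperm_dcell (σ : Equiv.Perm (Fin d)) (m : ℕ) (t : ℕ → Fin d) :
    gperm σ m (dcell m t) = dcell m (fun k => σ (t k)) := by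
  unfold gperm dcell
  simp only [Equiv.trans_apply, Equiv.symm_apply_apply]
  rfl

variable [NeZero d]

/-- uniform digit -/
noncomputable def unif (d : ℕ) [NeZero d] : Measure (Fin d) :=
  (PMF.uniformOfFintype (Fin d)).toMeasure

instance : IsProbabilityMeasure (unif d) := by unfold unif; infer_instance

lemma unif_singleton (i : Fin d) : unif d {i} = 1 / d := by
  unfold unif
  rw [PMF.toMeasure_apply_singleton _ _ (measurableSet_singleton i)]
  simp

/-- independent uniform digits -/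
noncomputable def PD (d : ℕ) [NeZero d] : Measure (ℕ → Fin d) := Measure.infinitePi fun _ => unif d

instance : IsProbabilityMeasure (PD d) := by unfold PD; infer_instance

lemma PD_cyl (K : ℕ) (e : Fin K → Fin d) : PD d {t | ∀ k : Fin K, t k = e k} = (1 / d) ^ K := by
  have h1 : {t : ℕ → Fin d | ∀ k : Fin K, t k = e k} = Set.pi (Finset.range K : Finset ℕ)
      (fun k => if h : k < K then {e ⟨k, h⟩} else univ) := by
    ext x
    simp only [mem_ofPred_eq, Set.mem_pi, Finset.coe_range, mem_Iio]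
    constructor
    · intro h k hk
      rw [dif_pos hk]; exact h ⟨k, hk⟩
    · intro h k
      have := h k k.2
      rw [dif_pos k.2] at this
      exact this
  rw [h1, PD, Measure.infinitePi_pi]
  · rw [Finset.prod_congr rfl (g := fun _ => (1 / d : ℝ≥0∞))]
    · simp
    · intro k hk
      rw [dif_pos (Finset.mem_range.1 hk), unif_singleton]
  · intro k _
    split_ifs
    · exact measurableSet_singleton _
    · exact MeasurableSet.univ

lemma PD_block (m K : ℕ) (c : Fin d) : PD d {t | ∀ k < K, t (k + m) = c} = (1 / d) ^ K := by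
  have h1 : {t : ℕ → Fin d | ∀ k < K, t (k + m) = c} =
      Set.pi (Finset.Ico m (K + m) : Finset ℕ) (fun _ => {c}) := by
    ext x
    simp only [mem_ofPred_eq, Set.mem_pi, Finset.coe_Ico, mem_Ico, mem_singleton_iff]
    constructor
    · rintro h k ⟨h1, h2⟩
      have := h (k - m) (by omega)
      rwa [Nat.sub_add_cancel h1] at this
    · intro h k hk
      exact h (k + m) ⟨by omega, by omega⟩
  rw [h1, PD, Measure.infinitePi_pi]
  · simp [unif_singleton]
  · intro k _
    exact measurableSet_singleton _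

lemma ae_ne (hd : 2 ≤ d) (m : ℕ) (c : Fin d) : ∀ᵐ t ∂(PD d), ∃ k, t (k + m) ≠ c := by
  rw [ae_iff]
  simp only [ne_eq, not_exists, not_not]
  refine le_antisymm ?_ bot_le
  have h1 : Tendsto (fun K : ℕ => ((1 : ℝ≥0∞) / d) ^ K) atTop (𝓝 0) := by
    apply ENNReal.tendsto_pow_atTop_nhds_zero_of_lt_one
    rw [one_div]
    exact ENNReal.inv_lt_one.2 (by exact_mod_cast (by omega : 1 < d))
  refine ge_of_tendsto' h1 fun K => ?_
  rw [← PD_block m K c]
  exact measure_mono fun t ht k _ => ht k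

lemma ae_dval_lt (hd : 2 ≤ d) (σ : Equiv.Perm (Fin d)) :
    ∀ᵐ t ∂(PD d), ∀ m, dval (fun k => σ (t (k + m))) < 1 := by
  rw [ae_all_iff]
  intro m
  filter_upwards [ae_ne hd m (σ.symm ⟨d - 1, by omega⟩)] with t ht
  apply dval_lt_one hd
  obtain ⟨k, hk⟩ := ht
  refine ⟨k, ?_⟩
  have h1 : (σ (t (k + m)) : ℕ) ≠ d - 1 := by
    intro h
    apply hk
    rw [Equiv.eq_symm_apply]
    exact Fin.ext h
  have := (σ (t (k + m))).2
  omega

omit [NeZero d] in
lemma measurable_dval : Measurable (dval (d := d)) := by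
  unfold dval
  refine Measurable.tsum ?_
  intro k
  have h1 : Measurable fun t : ℕ → Fin d => t k := measurable_pi_apply k
  exact ((measurable_of_finite (fun i : Fin d => ((i : ℕ) : ℝ))).comp h1).div_const _

end digits

end Pool.Agent.V11330.PE
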