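import Mathlib

set_option autoImplicit false

open Set Filter Topology MeasureTheory
open scoped NNReal ENNReal

namespace Pool.Agent.V11330.PE

open Real

section finite

variable {X K : Type*} [Fintype X] [Fintype K]

/-- upper bound for the entropy of the first marginal by counting -/
lemma ent_upper (p : X → K → ℝ) (hp : ∀ x k, 0 ≤ p x k) (hp1 : ∑ x, ∑ k, p x k = 1)
    (S : Finset K) (hS : ∀ x k, k ∉ S → p x k = 0) (c : K → ℕ)
    (hc : ∀ k, (Finset.univ.filter fun x => p x k ≠ 0).card ≤ c k) :
    ∑ x, negMulLog (∑ k, p x k) ≤ log S.card + ∑ k, (∑ x, p x k) * log (c k) := by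
  classical
  have hsub : ∀ x, negMulLog (∑ k, p x k) ≤ ∑ k, negMulLog (p x k) := by
    intro x
    unfold negMulLog
    have h1 : -(∑ k, p x k) * log (∑ k, p x k) = ∑ k, -(p x k) * log (∑ k, p x k) := by
      rw [← Finset.sum_mul, Finset.sum_neg_distrib]
    rw [h1]
    refine Finset.sum_le_sum fun k _ => ?_
    rcases (hp x k).eq_or_lt with h | h
    · rw [← h]; simp
    · have h2 : p x k ≤ ∑ k, p x k := Finset.single_le_sum (fun k _ => hp x k) (Finset.mem_univ k)
      have h3 : log (p x k) ≤ log (∑ k, p x k) := log_le_log h h2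
      nlinarith
  refine (Finset.sum_le_sum fun x _ => hsub x).trans ?_
  -- Gibbs
  have hSpos : 0 < S.card := by
    by_contra h0
    have hS0 : S = ∅ := Finset.card_eq_zero.1 (by omega)
    have : ∑ x, ∑ k, p x k = 0 :=
      Finset.sum_eq_zero fun x _ => Finset.sum_eq_zero fun k _ => hS x k (by rw [hS0]; simp)
    linarith
  have hSr : (0 : ℝ) < S.card := by exact_mod_cast hSpos
  have hterm : ∀ x k, negMulLog (p x k) ≤
      p x k * (log S.card + log (c k)) - p x k +
        (if p x k ≠ 0 then 1 / ((S.card : ℝ) * c k) else 0) := by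
    intro x k
    rcases (hp x k).eq_or_lt with h | h
    · rw [← h]; simp
    · have hne : p x k ≠ 0 := h.ne'
      rw [if_pos hne]
      have hck : 0 < c k := by
        refine lt_of_lt_of_le ?_ (hc k)
        exact Finset.card_pos.2 ⟨x, by simp [hne]⟩
      have hckr : (0 : ℝ) < c k := by exact_mod_cast hck
      set r : ℝ := 1 / ((S.card : ℝ) * c k) with hr
      have hrpos : 0 < r := by positivity
      have h1 : log (r / p x k) ≤ r / p x k - 1 := Real.log_le_sub_one_of_pos (by positivity)
      rw [log_div hrpos.ne' hne] at h1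
      have h2 : log r = -(log S.card + log (c k)) := by
        rw [hr, log_div one_ne_zero (by positivity), log_one, log_mul hSr.ne' hckr.ne']; ring
      rw [h2] at h1
      have h3 : p x k * (-(log S.card + log (c k)) - log (p x k)) ≤ p x k * (r / p x k - 1) :=
        mul_le_mul_of_nonneg_left h1 h.le
      have h4 : p x k * (r / p x k - 1) = r - p x k := by field_simp
      rw [h4] at h3
      unfold negMulLog
      linarith
  have hmass : ∑ x, ∑ k, (if p x k ≠ 0 then 1 / ((S.card : ℝ) * c k) else 0) ≤ 1 := by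
    rw [Finset.sum_comm]
    have h1 : ∀ k, ∑ x, (if p x k ≠ 0 then 1 / ((S.card : ℝ) * c k) else 0) ≤
        if k ∈ S then 1 / (S.card : ℝ) else 0 := by
      intro k
      rw [← Finset.sum_filter, Finset.sum_const, nsmul_eq_mul]
      by_cases hk : k ∈ S
      · rw [if_pos hk]
        rcases Nat.eq_zero_or_pos (c k) with h0 | h0
        · rw [h0]; simp
        · have hckr : (0 : ℝ) < c k := by exact_mod_cast h0
          have h2 : ((Finset.univ.filter fun x => p x k ≠ 0).card : ℝ) ≤ c k := by
            exact_mod_cast hc k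
          calc _ ≤ (c k : ℝ) * (1 / ((S.card : ℝ) * c k)) := by gcongr
            _ = 1 / (S.card : ℝ) := by field_simp
      · rw [if_neg hk]
        have h2 : (Finset.univ.filter fun x => p x k ≠ 0) = ∅ := by
          ext x; simp [hS x k hk]
        rw [h2]; simp
    refine (Finset.sum_le_sum fun k _ => h1 k).trans ?_
    rw [Finset.sum_ite_mem, Finset.univ_inter, Finset.sum_const, nsmul_eq_mul]
    exact le_of_eq (mul_one_div_cancel hSr.ne')
  have htot : ∑ x, ∑ k, negMulLog (p x k) ≤
      ∑ x, ∑ k, (p x k * (log S.card + log (c k)) - p x k +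
        (if p x k ≠ 0 then 1 / ((S.card : ℝ) * c k) else 0)) :=
    Finset.sum_le_sum fun x _ => Finset.sum_le_sum fun k _ => hterm x k
  refine htot.trans ?_
  simp only [Finset.sum_add_distrib, Finset.sum_sub_distrib]
  rw [hp1]
  have h5 : ∑ x, ∑ k, p x k * (log S.card + log (c k)) =
      log S.card + ∑ k, (∑ x, p x k) * log (c k) := by
    have : ∀ x k, p x k * (log S.card + log (c k)) = p x k * log S.card + p x k * log (c k) :=
      fun x k => by ring
    simp only [this, Finset.sum_add_distrib]
    congr 1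
    · simp only [← Finset.sum_mul]
      rw [hp1, one_mul]
    · rw [Finset.sum_comm]
      simp only [← Finset.sum_mul]
  rw [h5]
  linarith

/-- lower bound for the entropy of the first marginal -/
lemma ent_lower (p : X → K → ℝ) (hp : ∀ x k, 0 ≤ p x k) (hp1 : ∑ x, ∑ k, p x k = 1)
    (c : K → ℝ) (hc0 : ∀ k, 0 < c k) (hc : ∀ x k, p x k * c k ≤ ∑ x, p x k) :
    ∑ k, (∑ x, p x k) * log (c k) ≤ ∑ x, negMulLog (∑ k, p x k) := by
  have hterm : ∀ x k, p x k * log (c k) ≤ -(p x k * log (∑ k, p x k)) +
      ((∑ k, p x k) * (∑ x, p x k) - p x k) := by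
    intro x k
    rcases (hp x k).eq_or_lt with h | h
    · rw [← h]
      have h1 : 0 ≤ ∑ k, p x k := Finset.sum_nonneg fun k _ => hp x k
      have h2 : 0 ≤ ∑ x, p x k := Finset.sum_nonneg fun x _ => hp x k
      have := mul_nonneg h1 h2
      simp; linarith
    · set A := ∑ k, p x k with hA
      set Q := ∑ x, p x k with hQ
      have hA0 : 0 < A := lt_of_lt_of_le h
        (Finset.single_le_sum (f := fun k => p x k) (fun k _ => hp x k) (Finset.mem_univ k))
      have hQ0 : 0 < Q := lt_of_lt_of_le h
        (Finset.single_le_sum (f := fun x => p x k) (fun x _ => hp x k) (Finset.mem_univ x))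
      have h1 : log (A * Q / p x k) ≤ A * Q / p x k - 1 :=
        Real.log_le_sub_one_of_pos (by positivity)
      have h2 : log (c k) ≤ log (Q / p x k) := by
        apply log_le_log (hc0 k)
        rw [le_div_iff₀ h, mul_comm]
        exact hc x k
      have h3 : log (A * Q / p x k) = log A + log (Q / p x k) := by
        rw [mul_div_assoc, log_mul hA0.ne' (by positivity)]
      rw [h3] at h1
      have h4 : log (c k) ≤ A * Q / p x k - 1 - log A := by linarith
      have h5 : p x k * log (c k) ≤ p x k * (A * Q / p x k - 1 - log A) :=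
        mul_le_mul_of_nonneg_left h4 h.le
      have h6 : p x k * (A * Q / p x k - 1 - log A) = A * Q - p x k - p x k * log A := by
        field_simp
      rw [h6] at h5
      linarith
  have htot : ∑ x, ∑ k, p x k * log (c k) ≤ ∑ x, ∑ k, (-(p x k * log (∑ k, p x k)) +
      ((∑ k, p x k) * (∑ x, p x k) - p x k)) :=
    Finset.sum_le_sum fun x _ => Finset.sum_le_sum fun k _ => hterm x k
  have h1 : ∑ x, ∑ k, p x k * log (c k) = ∑ k, (∑ x, p x k) * log (c k) := by
    rw [Finset.sum_comm]; simp only [← Finset.sum_mul]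
  rw [h1] at htot
  refine htot.trans (le_of_eq ?_)
  simp only [Finset.sum_add_distrib, Finset.sum_sub_distrib, hp1]
  have h2 : ∑ x, ∑ k, (∑ k, p x k) * (∑ x, p x k) = 1 := by
    have : ∀ x, ∑ k, (∑ k, p x k) * (∑ x, p x k) = (∑ k, p x k) * 1 := by
      intro x
      rw [← Finset.mul_sum]
      congr 1
      rw [Finset.sum_comm]; exact hp1
    simp only [this, mul_one]
    exact hp1
  rw [h2]
  have h3 : ∀ x, ∑ k, -(p x k * log (∑ k, p x k)) = negMulLog (∑ k, p x k) := by
    intro x
    unfold negMulLog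
    rw [Finset.sum_neg_distrib, ← Finset.sum_mul]; ring
  simp only [h3]
  ring

end finite

section measure

variable {Ω : Type*} [MeasurableSpace Ω] {Q : Measure Ω} [IsProbabilityMeasure Q]
  {X K : Type*} [Fintype X] [Fintype K] [MeasurableSpace X] [MeasurableSingletonClass X]
  [MeasurableSpace K] [MeasurableSingletonClass K]

omit [IsProbabilityMeasure Q] in
lemma sum_joint [IsFiniteMeasure Q] {f : Ω → X} {g : Ω → K} (hg : Measurable g) (hf : Measurable f) (x : X) :
    ∑ k, Q.real {ω | f ω = x ∧ g ω = k} = Q.real {ω | f ω = x} := by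
  have h : {ω | f ω = x} = ⋃ k ∈ (Finset.univ : Finset K), {ω | f ω = x ∧ g ω = k} := by
    ext ω; simp
  rw [h, measureReal_biUnion_finset]
  · intro a _ b _ hab
    rw [Function.onFun, Set.disjoint_left]
    intro ω h1 h2
    exact hab (h1.2.symm.trans h2.2)
  · intro k _
    exact (hf (measurableSet_singleton x)).inter (hg (measurableSet_singleton k))

omit [IsProbabilityMeasure Q] in
lemma sum_joint' [IsFiniteMeasure Q] {f : Ω → X} {g : Ω → K} (hg : Measurable g) (hf : Measurable f) (k : K) :
    ∑ x, Q.real {ω | f ω = x ∧ g ω = k} = Q.real {ω | g ω = k} := by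
  have := sum_joint (Q := Q) (f := g) (g := f) hf hg k
  rw [← this]
  refine Finset.sum_congr rfl fun x _ => ?_
  congr 1
  ext ω; simp [and_comm]

lemma sum_all {f : Ω → X} {g : Ω → K} (hg : Measurable g) (hf : Measurable f) :
    ∑ x, ∑ k, Q.real {ω | f ω = x ∧ g ω = k} = 1 := by
  simp only [sum_joint hg hf]
  have h : (univ : Set Ω) = ⋃ x ∈ (Finset.univ : Finset X), {ω | f ω = x} := by
    ext ω; simp
  rw [← measureReal_biUnion_finset]
  · rw [← h]; simp
  · intro a _ b _ hab
    rw [Function.onFun, Set.disjoint_left]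
    intro ω h1 h2
    exact hab (h1.symm.trans h2)
  · intro k _
    exact hf (measurableSet_singleton k)

/-- the entropy of a random variable with finitely many values -/
noncomputable def ent (Q : Measure Ω) (f : Ω → X) : ℝ := ∑ x, negMulLog (Q.real {ω | f ω = x})

lemma ent_le {f : Ω → X} {g : Ω → K} (hf : Measurable f) (hg : Measurable g)
    (S : Finset K) (hS : ∀ᵐ ω ∂Q, g ω ∈ S) (c : K → ℕ) (C : K → Finset X)
    (hC : ∀ᵐ ω ∂Q, f ω ∈ C (g ω)) (hc : ∀ k, (C k).card ≤ c k) :
    ent Q f ≤ log S.card + ∑ k, Q.real {ω | g ω = k} * log (c k) := by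
  have h := ent_upper (fun x k => Q.real {ω | f ω = x ∧ g ω = k}) (fun x k => measureReal_nonneg)
    (sum_all hg hf) S ?_ c ?_
  · simp only [sum_joint hg hf, sum_joint' hg hf] at h
    exact h
  · intro x k hk
    rw [measureReal_def, ENNReal.toReal_eq_zero_iff]
    left
    have : ∀ᵐ ω ∂Q, ¬ (f ω = x ∧ g ω = k) := by
      filter_upwards [hS] with ω hω h1
      exact hk (h1.2 ▸ hω)
    simpa [ae_iff] using this
  · intro k
    refine le_trans (Finset.card_le_card ?_) (hc k)
    intro x hx
    rw [Finset.mem_filter] at hx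
    by_contra hcon
    apply hx.2
    rw [measureReal_def, ENNReal.toReal_eq_zero_iff]
    left
    have : ∀ᵐ ω ∂Q, ¬ (f ω = x ∧ g ω = k) := by
      filter_upwards [hC] with ω hω h1
      apply hcon
      rw [← h1.1, ← h1.2]; exact hω
    simpa [ae_iff] using this

lemma le_ent {f : Ω → X} {g : Ω → K} (hf : Measurable f) (hg : Measurable g)
    (c : K → ℝ) (hc0 : ∀ k, 0 < c k)
    (hc : ∀ x k, Q.real {ω | f ω = x ∧ g ω = k} * c k ≤ Q.real {ω | g ω = k}) :
    ∑ k, Q.real {ω | g ω = k} * log (c k) ≤ ent Q f := by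
  have h := ent_lower (fun x k => Q.real {ω | f ω = x ∧ g ω = k}) (fun x k => measureReal_nonneg)
    (sum_all hg hf) c hc0 (fun x k => by rw [sum_joint' hg hf]; exact hc x k)
  simp only [sum_joint hg hf, sum_joint' hg hf] at h
  exact h

end measure

end Pool.Agent.V11330.PE
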