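import Pool.Agent.V11330.PE.Upper
import Mathlib.GroupTheory.Perm.DomMulAct

set_option autoImplicit false

open Set Filter Topology MeasureTheory ProbabilityTheory
open scoped NNReal ENNReal

namespace Pool.Agent.V11330.PE

/-! ### positions -/

lemma sort_symm_eq {n : ℕ} (x : Fin n → ℝ) (i : Fin n) (hi : ∀ j, j ≠ i → x j ≠ x i) :
    (((Tuple.sort x).symm i : Fin n) : ℕ) = (Finset.univ.filter fun j => x j < x i).card := by
  classical
  set τ := Tuple.sort x with hτ
  have hm : Monotone (x ∘ τ) := Tuple.monotone_sort x
  have h1 : (Finset.univ.filter fun j => x j < x i).card =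
      (Finset.univ.filter fun k => k < τ.symm i).card := by
    refine Finset.card_bij (fun j _ => τ.symm j) ?_ ?_ ?_
    · intro j hj
      rw [Finset.mem_filter] at hj ⊢
      refine ⟨Finset.mem_univ _, ?_⟩
      by_contra hcon
      push Not at hcon
      have := hm hcon
      simp only [Function.comp_apply, Equiv.apply_symm_apply] at this
      exact absurd hj.2 (not_lt.2 this)
    · intro j _ j' _ h
      exact τ.symm.injective h
    · intro k hk
      rw [Finset.mem_filter] at hk
      refine ⟨τ k, ?_, by simp⟩
      rw [Finset.mem_filter]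
      refine ⟨Finset.mem_univ _, ?_⟩
      have := hm hk.2.le
      simp only [Function.comp_apply, Equiv.apply_symm_apply] at this
      refine lt_of_le_of_ne this (hi _ ?_)
      intro h
      rw [← h, Equiv.symm_apply_apply] at hk
      exact absurd hk.2 (lt_irrefl _)
  rw [h1]
  have h2 : (Finset.univ.filter fun k => k < τ.symm i) = Finset.Iio (τ.symm i) := by
    ext k; simp
  rw [h2, Fin.card_Iio]

lemma pat_lt {n : ℕ} (x y : Fin n → ℝ) (i j : Fin n) (h : y i < y j) :
    pat x y ((Tuple.sort x).symm i) < pat x y ((Tuple.sort x).symm j) := by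
  set τ := Tuple.sort x with hτ
  by_contra hcon
  push Not at hcon
  have hm := Tuple.monotone_sort (y ∘ τ) hcon
  have e : ∀ k, Tuple.sort (y ∘ τ) (pat x y k) = k := fun k => by
    unfold pat
    exact (Tuple.sort (y ∘ τ)).apply_symm_apply k
  simp only [Function.comp_apply, e, Equiv.apply_symm_apply] at hm
  exact absurd h (not_lt.2 hm)

/-- the position of a point, computed from the codes -/
def pos {n D q : ℕ} (vv : Fin n → Fin D) (aa : Fin n → Fin q) (i : Fin n) : Fin n :=
  ⟨(Finset.univ.filter fun j => q * (vv j : ℕ) + (aa j : ℕ) < q * (vv i : ℕ) + (aa i : ℕ)).card, by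
    have := Finset.card_lt_univ_of_notMem (s := Finset.univ.filter fun j =>
      q * (vv j : ℕ) + (aa j : ℕ) < q * (vv i : ℕ) + (aa i : ℕ)) (x := i) (by simp)
    rwa [Fintype.card_fin] at this⟩

/-- the cells where both subcell coordinates are separated -/
def Jof {n D q : ℕ} (vv : Fin n → Fin D) (aa t : Fin n → Fin q) : Fin D → Bool := fun u =>
  decide (∀ i j, vv i = u → vv j = u → i ≠ j → aa i ≠ aa j ∧ t i ≠ t j)

def cell {n D : ℕ} (vv : Fin n → Fin D) (J : Fin D → Bool) : Fin n → Fin D ⊕ Fin n :=
  fun i => if J (vv i) then Sum.inl (vv i) else Sum.inr i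

/-- number of permutations preserving the separated cells -/
def ck {n D : ℕ} (vv : Fin n → Fin D) (J : Fin D → Bool) : ℕ :=
  Fintype.card {h : Equiv.Perm (Fin n) // cell vv J ∘ h = cell vv J}

lemma cell_perm {n D : ℕ} {vv : Fin n → Fin D} {J : Fin D → Bool} {h : Equiv.Perm (Fin n)}
    (hh : cell vv J ∘ h = cell vv J) (i : Fin n) :
    (J (vv i) = true → vv (h i) = vv i) ∧ (J (vv i) = false → h i = i) := by
  have h1 := congrFun hh i
  simp only [Function.comp_apply, cell] at h1
  constructor
  · intro h2
    rw [if_pos h2] at h1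
    by_cases h3 : J (vv (h i)) = true
    · rw [if_pos h3] at h1
      exact Sum.inl.inj h1
    · rw [if_neg h3] at h1
      exact absurd h1 (by simp)
  · intro h2
    have h2' : ¬ (J (vv i) = true) := by simp [h2]
    rw [if_neg h2'] at h1
    by_cases h3 : J (vv (h i)) = true
    · rw [if_pos h3] at h1
      exact absurd h1 (by simp)
    · rw [if_neg h3] at h1
      exact Sum.inr.inj h1

/-- vectors of second subcell coordinates with a given key -/
def TK {n D q : ℕ} (vv : Fin n → Fin D) (aa : Fin n → Fin q) (J : Fin D → Bool) :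
    Finset (Fin n → Fin q) :=
  Finset.univ.filter fun t => Jof vv aa t = J

/-- vectors of second subcell coordinates compatible with a given key and pattern -/
def TX {n D q : ℕ} (x : Equiv.Perm (Fin n)) (vv : Fin n → Fin D) (aa : Fin n → Fin q)
    (J : Fin D → Bool) : Finset (Fin n → Fin q) :=
  Finset.univ.filter fun t => Jof vv aa t = J ∧ ∀ i j, vv i = vv j → J (vv i) = true →
    (t i < t j ↔ x (pos vv aa i) < x (pos vv aa j))

lemma card_TX {n D q : ℕ} (x : Equiv.Perm (Fin n)) (vv : Fin n → Fin D) (aa : Fin n → Fin q)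
    (J : Fin D → Bool) : (TX x vv aa J).card * ck vv J ≤ (TK vv aa J).card := by
  classical
  have h0 : (TX x vv aa J).card * ck vv J = ((TX x vv aa J) ×ˢ
      (Finset.univ : Finset {h : Equiv.Perm (Fin n) // cell vv J ∘ h = cell vv J})).card := by
    rw [Finset.card_product, Finset.card_univ]; rfl
  rw [h0]
  refine Finset.card_le_card_of_injOn (fun p => p.1 ∘ p.2.1) ?_ ?_
  · rintro ⟨t, h, hh⟩ hp
    have ht := (Finset.mem_product.1 (Finset.mem_coe.1 hp)).1
    unfold TX at ht
    have ht1 := (Finset.mem_filter.1 ht).2.1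
    show t ∘ h ∈ (TK vv aa J : Set _)
    unfold TK
    rw [Finset.mem_coe, Finset.mem_filter]
    refine ⟨Finset.mem_univ _, ?_⟩
    funext u
    have hu := congrFun ht1 u
    rcases hJ : J u with _ | _
    · rw [hJ] at hu
      unfold Jof at hu ⊢
      rw [decide_eq_false_iff_not] at hu ⊢
      intro hcon
      apply hu
      intro i j hi hj hij
      have e1 : h i = i := (cell_perm hh i).2 (by rw [hi]; exact hJ)
      have e2 : h j = j := (cell_perm hh j).2 (by rw [hj]; exact hJ)
      have := hcon i j hi hj hij
      simp only [Function.comp_apply, e1, e2] at this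
      exact this
    · rw [hJ] at hu
      unfold Jof at hu ⊢
      rw [decide_eq_true_iff] at hu ⊢
      intro i j hi hj hij
      have e1 : vv (h i) = u := by rw [(cell_perm hh i).1 (by rw [hi]; exact hJ), hi]
      have e2 : vv (h j) = u := by rw [(cell_perm hh j).1 (by rw [hj]; exact hJ), hj]
      exact ⟨(hu i j hi hj hij).1, (hu (h i) (h j) e1 e2 (fun hc => hij (h.injective hc))).2⟩
  · rintro ⟨t, h, hh⟩ hp ⟨t', h', hh'⟩ hp' heq
    have ht := (Finset.mem_product.1 (Finset.mem_coe.1 hp)).1
    have ht' := (Finset.mem_product.1 (Finset.mem_coe.1 hp')).1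
    unfold TX at ht ht'
    have ht := (Finset.mem_filter.1 ht).2
    have ht' := (Finset.mem_filter.1 ht').2
    simp only at ht ht' heq
    -- the composed permutation
    set g : Equiv.Perm (Fin n) := h' * h⁻¹ with hg
    have hgt : ∀ k, t k = t' (g k) := by
      intro k
      have := congrFun heq (h⁻¹ k)
      simp only [Function.comp_apply] at this
      have e : h (h⁻¹ k) = k := h.apply_symm_apply k
      rw [e] at this
      rw [this]; rfl
    have hgc : cell vv J ∘ g = cell vv J := by
      funext k
      have e1 := congrFun hh' (h⁻¹ k)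
      have e2 := congrFun hh (h⁻¹ k)
      simp only [Function.comp_apply] at e1 e2
      have e : h (h⁻¹ k) = k := h.apply_symm_apply k
      rw [e] at e2
      show cell vv J (h' (h⁻¹ k)) = cell vv J k
      rw [e1, e2]
    have hord : ∀ i j, vv i = vv j → J (vv i) = true → (t' i < t' j ↔ t' (g i) < t' (g j)) := by
      intro i j hij hJ
      rw [ht'.2 i j hij hJ, ← ht.2 i j hij hJ, hgt i, hgt j]
    have hg1 : ∀ k, g k = k := by
      intro k
      rcases hJ : J (vv k) with _ | _
      · exact (cell_perm hgc k).2 hJ
      · by_contra hne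
        have hcell : ∀ m : ℕ, vv ((g ^ m) k) = vv k := by
          intro m
          induction m with
          | zero => rfl
          | succ m ih =>
            rw [pow_succ', Equiv.Perm.mul_apply, (cell_perm hgc _).1 (by rw [ih]; exact hJ), ih]
        have hinj : ∀ i j, vv i = vv k → vv j = vv k → i ≠ j → t' i ≠ t' j := by
          intro i j hi hj hij
          have h3 := congrFun ht'.1 (vv k)
          rw [hJ] at h3
          unfold Jof at h3
          rw [decide_eq_true_iff] at h3
          exact (h3 i j hi hj hij).2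
        have hne' : t' (g k) ≠ t' k := hinj _ _ (hcell 1) rfl hne
        rcases lt_or_gt_of_ne hne' with hlt | hlt
        · have hstep : ∀ m : ℕ, t' ((g ^ (m + 1)) k) < t' ((g ^ m) k) := by
            intro m
            induction m with
            | zero => simpa using hlt
            | succ m ih =>
              have h4 := (hord _ _ ((hcell (m + 1)).trans (hcell m).symm)
                (by rw [hcell (m + 1)]; exact hJ)).1 ih
              rw [pow_succ' g (m + 1), Equiv.Perm.mul_apply]
              have h5 : (g ^ (m + 1)) k = g ((g ^ m) k) := by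
                rw [pow_succ', Equiv.Perm.mul_apply]
              calc t' (g ((g ^ (m + 1)) k)) < t' (g ((g ^ m) k)) := h4
                _ = t' ((g ^ (m + 1)) k) := by rw [h5]
          exact not_injective_infinite_finite (fun m : ℕ => t' ((g ^ m) k))
            (strictAnti_nat_of_succ_lt hstep).injective
        · have hstep : ∀ m : ℕ, t' ((g ^ m) k) < t' ((g ^ (m + 1)) k) := by
            intro m
            induction m with
            | zero => simpa using hlt
            | succ m ih =>
              have h4 := (hord _ _ ((hcell m).trans (hcell (m + 1)).symm)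
                (by rw [hcell m]; exact hJ)).1 ih
              rw [pow_succ' g (m + 1), Equiv.Perm.mul_apply]
              have h5 : (g ^ (m + 1)) k = g ((g ^ m) k) := by
                rw [pow_succ', Equiv.Perm.mul_apply]
              calc t' ((g ^ (m + 1)) k) = t' (g ((g ^ m) k)) := by rw [h5]
                _ < t' (g ((g ^ (m + 1)) k)) := h4
          exact not_injective_infinite_finite (fun m : ℕ => t' ((g ^ m) k))
            (strictMono_nat_of_lt_succ hstep).injective
    have hhh : h' = h := by
      apply Equiv.ext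
      intro k
      have := hg1 (h k)
      have e : h⁻¹ (h k) = k := h.symm_apply_apply k
      rw [hg, Equiv.Perm.mul_apply, e] at this
      exact this
    have htt : t = t' := by
      funext k
      rw [hgt k, hg1 k]
    subst hhh
    subst htt
    rfl

lemma log_ck_ge {n D : ℕ} (vv : Fin n → Fin D) (J : Fin D → Bool) (h : ℕ) :
    ∑ u, (if J u = true ∧ h ≤ (Finset.univ.filter fun i => vv i = u).card then
      Real.log (h.factorial : ℝ) else 0) ≤ Real.log (ck vv J) := by
  classical
  unfold ck
  rw [DomMulAct.stabilizer_card, Fintype.prod_sum_type]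
  push_cast
  rw [Real.log_mul (by positivity) (by positivity), Real.log_prod (fun u _ => by positivity),
    Real.log_prod (fun u _ => by positivity)]
  have h2 : 0 ≤ ∑ i : Fin n, Real.log
      (((Fintype.card {a // cell vv J a = Sum.inr i}).factorial : ℕ) : ℝ) :=
    Finset.sum_nonneg fun i _ => Real.log_natCast_nonneg _
  refine le_trans (Finset.sum_le_sum fun u _ => ?_) (le_add_of_nonneg_right h2)
  split_ifs with hu
  · apply Real.log_le_log (by positivity)
    have h3 : h ≤ Fintype.card {a // cell vv J a = Sum.inl u} := by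
      rw [Fintype.card_subtype]
      refine hu.2.trans (Finset.card_le_card ?_)
      intro i hi
      rw [Finset.mem_filter] at hi ⊢
      refine ⟨Finset.mem_univ _, ?_⟩
      unfold cell
      rw [if_pos (by rw [hi.2]; exact hu.1), hi.2]
    exact_mod_cast Nat.factorial_le h3
  · exact Real.log_natCast_nonneg _

lemma ck_pos {n D : ℕ} (vv : Fin n → Fin D) (J : Fin D → Bool) : 0 < ck vv J := by
  unfold ck
  exact Fintype.card_pos_iff.2 ⟨⟨1, by funext i; rfl⟩⟩

section

variable {S : Type*} [MeasurableSpace S] {P : Measure S} [IsProbabilityMeasure P]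
  {X Y : S → ℝ} {D q : ℕ} {v : S → Fin D} {a b : S → Fin q} {g : Equiv.Perm (Fin D)}

/-- all codes -/
def zet (v : S → Fin D) (a b : S → Fin q) {n : ℕ} (ω : Fin n → S) :
    (Fin n → Fin D) × (Fin n → Fin q) × (Fin n → Fin q) :=
  (fun i => v (ω i), fun i => a (ω i), fun i => b (ω i))

lemma measurable_zet {n : ℕ} (hv : Measurable v) (ha : Measurable a) (hb : Measurable b) :
    Measurable (zet v a b (n := n)) := by
  unfold zet
  refine Measurable.prodMk ?_ (Measurable.prodMk ?_ ?_)
  · exact measurable_pi_lambda _ fun i => hv.comp (measurable_pi_apply i)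
  · exact measurable_pi_lambda _ fun i => ha.comp (measurable_pi_apply i)
  · exact measurable_pi_lambda _ fun i => hb.comp (measurable_pi_apply i)

/-- the key -/
def key (v : S → Fin D) (a b : S → Fin q) {n : ℕ} (ω : Fin n → S) :
    (Fin n → Fin D) × (Fin n → Fin q) × (Fin D → Bool) :=
  (fun i => v (ω i), fun i => a (ω i),
    Jof (fun i => v (ω i)) (fun i => a (ω i)) (fun i => b (ω i)))

lemma measurable_key {n : ℕ} (hv : Measurable v) (ha : Measurable a) (hb : Measurable b) :
    Measurable (key v a b (n := n)) := by
  have h1 : Measurable (fun z : (Fin n → Fin D) × (Fin n → Fin q) × (Fin n → Fin q) =>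
      ((z.1, z.2.1, Jof z.1 z.2.1 z.2.2) :
        (Fin n → Fin D) × (Fin n → Fin q) × (Fin D → Bool))) := Measurable.of_discrete
  exact h1.comp (measurable_zet hv ha hb)

lemma Cells.law_zet (C : Cells P X Y D q v a b g) {n : ℕ} (vv : Fin n → Fin D)
    (aa t : Fin n → Fin q) :
    (smp P n) {ω | zet v a b ω = (vv, aa, t)} = (1 / (D * q * q)) ^ n := by
  have h1 : {ω : Fin n → S | zet v a b ω = (vv, aa, t)} =
      Set.univ.pi fun i => {s | v s = vv i ∧ a s = aa i ∧ b s = t i} := by
    ext ω
    simp only [mem_ofPred_eq, zet, Prod.mk.injEq, funext_iff, mem_univ_pi]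
    constructor
    · rintro ⟨h1, h2, h3⟩ i
      exact ⟨h1 i, h2 i, h3 i⟩
    · intro h
      exact ⟨fun i => (h i).1, fun i => (h i).2.1, fun i => (h i).2.2⟩
  rw [h1, Measure.pi_pi]
  simp only [C.law, Finset.prod_const, Finset.card_univ, Fintype.card_fin]

lemma Cells.law_T (C : Cells P X Y D q v a b g) {n : ℕ} (vv : Fin n → Fin D)
    (aa : Fin n → Fin q) (T : Finset (Fin n → Fin q)) :
    (smp P n).real {ω | ∃ t ∈ T, zet v a b ω = (vv, aa, t)} =
      T.card * (1 / (D * q * q : ℝ)) ^ n := by
  have h1 : {ω : Fin n → S | ∃ t ∈ T, zet v a b ω = (vv, aa, t)} =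
      ⋃ t ∈ T, {ω | zet v a b ω = (vv, aa, t)} := by
    ext ω; simp
  rw [h1, measureReal_biUnion_finset]
  · have : ∀ t ∈ T, (smp P n).real {ω | zet v a b ω = (vv, aa, t)} = (1 / (D * q * q : ℝ)) ^ n := by
      intro t _
      rw [measureReal_def, C.law_zet, ENNReal.toReal_pow]
      simp
    rw [Finset.sum_congr rfl this, Finset.sum_const, nsmul_eq_mul]
  · intro t _ t' _ hne
    rw [Function.onFun, Set.disjoint_left]
    intro ω h1 h2
    simp only [mem_ofPred_eq] at h1 h2
    rw [h1] at h2
    simp only [Prod.mk.injEq, true_and] at h2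
    exact hne h2
  · intro t _
    exact (measurable_zet C.mv C.ma C.mb) (measurableSet_singleton _)

lemma good_TX {n : ℕ} {ω : Fin n → S} (h : ∀ i, Good X Y D q v a b g (ω i)) :
    (fun i => b (ω i)) ∈ TX (pat (fun i => X (ω i)) (fun i => Y (ω i)))
      (key v a b ω).1 (key v a b ω).2.1 (key v a b ω).2.2 := by
  classical
  unfold TX
  rw [Finset.mem_filter]
  refine ⟨Finset.mem_univ _, rfl, ?_⟩
  simp only [key]
  set vv : Fin n → Fin D := fun i => v (ω i) with hvv
  set aa : Fin n → Fin q := fun i => a (ω i) with haa
  set J := Jof vv aa (fun i => b (ω i)) with hJ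
  -- position
  have hpos : ∀ i, J (vv i) = true → (Tuple.sort fun i => X (ω i)).symm i = pos vv aa i := by
    intro i hi
    have hsep : ∀ j, j ≠ i → (q * (vv j : ℕ) + (aa j : ℕ)) ≠ (q * (vv i : ℕ) + (aa i : ℕ)) := by
      intro j hj heq
      have h1 := congrArg (fun k => k / q) heq
      simp only [code_div (aa j).2, code_div (aa i).2] at h1
      have h2 : vv j = vv i := Fin.ext h1
      have h3 : aa j = aa i := by
        apply Fin.ext
        rw [h2] at heq
        omega
      rw [hJ] at hi
      unfold Jof at hi
      rw [decide_eq_true_iff] at hi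
      exact (hi j i h2 rfl hj).1 h3
    apply Fin.ext
    rw [sort_symm_eq]
    · show _ = (Finset.univ.filter fun j => q * (vv j : ℕ) + (aa j : ℕ) <
        q * (vv i : ℕ) + (aa i : ℕ)).card
      congr 1
      ext j
      simp only [Finset.mem_filter, Finset.mem_univ, true_and]
      constructor
      · intro hlt
        have h1 := code_le (h j).1 (h i).1 hlt.le
        refine lt_of_le_of_ne h1 (hsep j ?_)
        rintro rfl
        exact absurd hlt (lt_irrefl _)
      · intro hlt
        exact code_lt (h j).1 (h i).1 hlt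
    · intro j hj heq
      have h1 := code_le (h j).1 (h i).1 heq.le
      have h2 := code_le (h i).1 (h j).1 heq.ge
      exact hsep j hj (le_antisymm h1 h2)
  -- order
  have hlt : ∀ i j, vv i = vv j → J (vv i) = true → b (ω i) < b (ω j) →
      pat (fun i => X (ω i)) (fun i => Y (ω i)) (pos vv aa i) <
      pat (fun i => X (ω i)) (fun i => Y (ω i)) (pos vv aa j) := by
    intro i j hij hi hb
    rw [← hpos i hi, ← hpos j (by rw [← hij]; exact hi)]
    apply pat_lt
    refine code_lt (h i).2 (h j).2 ?_
    have : g (v (ω i)) = g (v (ω j)) := congrArg g hij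
    rw [this]
    have hb' : (b (ω i) : ℕ) < b (ω j) := hb
    omega
  intro i j hij hi
  constructor
  · exact hlt i j hij hi
  · intro hx
    by_contra hcon
    push Not at hcon
    rcases hcon.lt_or_eq with h1 | h1
    · have hj : J (vv j) = true := by
        have e : vv i = vv j := hij
        rw [← e]; exact hi
      have := hlt j i hij.symm hj h1
      exact absurd hx (not_lt.2 this.le)
    · by_cases hne : i = j
      · subst hne; exact absurd hx (lt_irrefl _)
      · have h2 := hi
        rw [hJ] at h2
        unfold Jof at h2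
        rw [decide_eq_true_iff] at h2
        exact (h2 i j rfl hij.symm hne).2 h1.symm

theorem Cells.key_bound (C : Cells P X Y D q v a b g) {n : ℕ} (x : Equiv.Perm (Fin n))
    (k : (Fin n → Fin D) × (Fin n → Fin q) × (Fin D → Bool)) :
    (smp P n).real {ω | pat (fun i => X (ω i)) (fun i => Y (ω i)) = x ∧ key v a b ω = k} *
      (ck k.1 k.2.2 : ℝ) ≤ (smp P n).real {ω | key v a b ω = k} := by
  obtain ⟨vv, aa, J⟩ := k
  have h1 : (smp P n).real {ω | pat (fun i => X (ω i)) (fun i => Y (ω i)) = x ∧
      key v a b ω = (vv, aa, J)} ≤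
      (smp P n).real {ω | ∃ t ∈ TX x vv aa J, zet v a b ω = (vv, aa, t)} := by
    rw [measureReal_def, measureReal_def]
    refine ENNReal.toReal_mono (measure_ne_top _ _) (measure_mono_ae ?_)
    filter_upwards [ae_smp (n := n) C.good] with ω hω hmem
    obtain ⟨hx, hk⟩ := hmem
    have h2 := good_TX hω
    rw [hx, hk] at h2
    refine ⟨_, h2, ?_⟩
    have h3 := congrArg Prod.fst hk
    have h4 := congrArg (fun z => z.2.1) hk
    simp only [key] at h3 h4
    simp only [zet]
    rw [h3, h4]
  have h2 : (smp P n).real {ω | key v a b ω = (vv, aa, J)} =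
      (smp P n).real {ω | ∃ t ∈ TK vv aa J, zet v a b ω = (vv, aa, t)} := by
    congr 1
    ext ω
    simp only [mem_ofPred_eq]
    constructor
    · intro hk
      have h3 := congrArg Prod.fst hk
      have h4 := congrArg (fun z => z.2.1) hk
      have h5 := congrArg (fun z => z.2.2) hk
      simp only [key] at h3 h4 h5
      refine ⟨fun i => b (ω i), ?_, ?_⟩
      · unfold TK
        rw [Finset.mem_filter]
        refine ⟨Finset.mem_univ _, ?_⟩
        rw [← h5, h3, h4]
      · simp only [zet]
        rw [h3, h4]
    · rintro ⟨t, ht, hz⟩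
      have h3 := congrArg Prod.fst hz
      have h4 := congrArg (fun z => z.2.1) hz
      have h5 := congrArg (fun z => z.2.2) hz
      simp only [zet] at h3 h4 h5
      unfold TK at ht
      rw [Finset.mem_filter] at ht
      simp only [key]
      rw [h3, h4, h5, ht.2]
  rw [h2, C.law_T]
  refine (mul_le_mul_of_nonneg_right h1 (Nat.cast_nonneg _)).trans ?_
  rw [C.law_T]
  have h3 : ((TX x vv aa J).card : ℝ) * ck vv J ≤ (TK vv aa J).card := by
    exact_mod_cast card_TX x vv aa J
  calc (TX x vv aa J).card * (1 / (D * q * q : ℝ)) ^ n * (ck vv J : ℝ) =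
      ((TX x vv aa J).card * (ck vv J : ℝ)) * (1 / (D * q * q : ℝ)) ^ n := by ring
    _ ≤ _ := mul_le_mul_of_nonneg_right h3 (by positivity)

end

end Pool.Agent.V11330.PE
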