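import Pool.Agent.V11330.PE.Lower

set_option autoImplicit false

open Set Filter Topology MeasureTheory ProbabilityTheory
open scoped NNReal ENNReal

namespace Pool.Agent.V11330.PE

section

variable {S : Type*} [MeasurableSpace S] {P : Measure S} [IsProbabilityMeasure P]
  {X Y : S → ℝ} {D q : ℕ} {v : S → Fin D} {a b : S → Fin q} {g : Equiv.Perm (Fin D)}

omit [IsProbabilityMeasure P] in
lemma Cells.pva (C : Cells P X Y D q v a b g) (hq : 0 < q) (u : Fin D) (c : Fin q) :
    P {s | v s = u ∧ a s = c} = 1 / (D * q) := by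
  have h : {s | v s = u ∧ a s = c} = ⋃ p ∈ (Finset.univ : Finset (Fin q)),
      {s | v s = u ∧ a s = c ∧ b s = p} := by
    ext s; simp
  rw [h, measure_biUnion_finset]
  · simp only [C.law, Finset.sum_const, Finset.card_univ, Fintype.card_fin,
      nsmul_eq_mul]
    have hD : (D : ℝ≥0∞) ≠ 0 := by
      have := u.pos; exact_mod_cast this.ne'
    have hq' : (q : ℝ≥0∞) ≠ 0 := by exact_mod_cast hq.ne'
    rw [one_div, one_div, ENNReal.mul_inv (Or.inr (by simp)) (Or.inr hq'),
      mul_comm ((D * q : ℝ≥0∞)⁻¹), ← mul_assoc, ENNReal.mul_inv_cancel hq' (by simp), one_mul]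
  · intro p _ p' _ hne
    rw [Function.onFun, Set.disjoint_left]
    rintro s ⟨_, _, h2⟩ ⟨_, _, h4⟩
    exact hne (h2.symm.trans h4)
  · intro p _
    exact (C.mv (measurableSet_singleton u)).inter
      ((C.ma (measurableSet_singleton _)).inter (C.mb (measurableSet_singleton _)))

omit [IsProbabilityMeasure P] in
lemma Cells.pvb (C : Cells P X Y D q v a b g) (hq : 0 < q) (u : Fin D) (c : Fin q) :
    P {s | v s = u ∧ b s = c} = 1 / (D * q) := by
  have h : {s | v s = u ∧ b s = c} = ⋃ p ∈ (Finset.univ : Finset (Fin q)),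
      {s | v s = u ∧ a s = p ∧ b s = c} := by
    ext s; simp
  rw [h, measure_biUnion_finset]
  · simp only [C.law, Finset.sum_const, Finset.card_univ, Fintype.card_fin,
      nsmul_eq_mul]
    have hD : (D : ℝ≥0∞) ≠ 0 := by
      have := u.pos; exact_mod_cast this.ne'
    have hq' : (q : ℝ≥0∞) ≠ 0 := by exact_mod_cast hq.ne'
    rw [one_div, one_div, ENNReal.mul_inv (Or.inr (by simp)) (Or.inr hq'),
      mul_comm ((D * q : ℝ≥0∞)⁻¹), ← mul_assoc, ENNReal.mul_inv_cancel hq' (by simp), one_mul]
  · intro p _ p' _ hne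
    rw [Function.onFun, Set.disjoint_left]
    rintro s ⟨_, h2, _⟩ ⟨_, h4, _⟩
    exact hne (h2.symm.trans h4)
  · intro p _
    exact (C.mv (measurableSet_singleton u)).inter
      ((C.ma (measurableSet_singleton _)).inter (C.mb (measurableSet_singleton _)))

/-- collision probability inside a cell -/
lemma coll_prob {v : S → Fin D} {c : S → Fin q} (hD : 0 < D) (hq : 0 < q) (hv : Measurable v)
    (hc : Measurable c)
    (hp : ∀ u k, P {s | v s = u ∧ c s = k} = 1 / (D * q)) {n : ℕ} {i j : Fin n} (hij : i ≠ j)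
    (u : Fin D) :
    (smp P n).real {ω | v (ω i) = u ∧ v (ω j) = u ∧ c (ω i) = c (ω j)} =
      1 / ((D : ℝ) ^ 2 * q) := by
  have hm : ∀ k, MeasurableSet {s | v s = u ∧ c s = k} := fun k =>
    (hv (measurableSet_singleton u)).inter (hc (measurableSet_singleton k))
  have h9 : {ω : Fin n → S | v (ω i) = u ∧ v (ω j) = u ∧ c (ω i) = c (ω j)} =
      ⋃ k ∈ (Finset.univ : Finset (Fin q)),
        {ω | ω i ∈ {s | v s = u ∧ c s = k} ∧ ω j ∈ {s | v s = u ∧ c s = k}} := by
    ext ω
    simp only [mem_ofPred_eq, Finset.mem_univ, iUnion_true, mem_iUnion]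
    constructor
    · rintro ⟨h1, h2, h3⟩
      exact ⟨c (ω i), ⟨h1, rfl⟩, h2, h3.symm⟩
    · rintro ⟨k, ⟨h1, h2⟩, h3, h4⟩
      exact ⟨h1, h3, h2.trans h4.symm⟩
  rw [h9, measureReal_biUnion_finset]
  · have h10 : ∀ k ∈ (Finset.univ : Finset (Fin q)), (smp P n).real
        {ω | ω i ∈ {s | v s = u ∧ c s = k} ∧ ω j ∈ {s | v s = u ∧ c s = k}} =
        (1 / (D * q : ℝ)) * (1 / (D * q)) := by
      intro k _
      rw [measureReal_def, pair_prob hij (hm k) (hm k), hp, ENNReal.toReal_mul]
      simp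
    rw [Finset.sum_congr rfl h10, Finset.sum_const, Finset.card_univ, Fintype.card_fin,
      nsmul_eq_mul]
    have h1 : (D : ℝ) ≠ 0 := by exact_mod_cast hD.ne'
    have h2 : (q : ℝ) ≠ 0 := by exact_mod_cast hq.ne'
    field_simp
  · intro k _ k' _ hne
    rw [Function.onFun, Set.disjoint_left]
    rintro ω ⟨⟨_, h1⟩, _⟩ ⟨⟨_, h2⟩, _⟩
    exact hne (h1.symm.trans h2)
  · intro k _
    have hi : Measurable fun ω : Fin n → S => ω i := measurable_pi_apply i
    have hj : Measurable fun ω : Fin n → S => ω j := measurable_pi_apply j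
    exact (hi (hm k)).inter (hj (hm k))

/-- the probability that a cell is not separated -/
lemma Cells.prob_not_sep (C : Cells P X Y D q v a b g) (hD : 0 < D) (hq : 0 < q) (n : ℕ)
    (u : Fin D) :
    (smp P n).real {ω | Jof (fun i => v (ω i)) (fun i => a (ω i)) (fun i => b (ω i)) u = false} ≤
      2 * (n : ℝ) ^ 2 / ((D : ℝ) ^ 2 * q) := by
  classical
  have hsub : {ω : Fin n → S | Jof (fun i => v (ω i)) (fun i => a (ω i)) (fun i => b (ω i)) u =
      false} ⊆ ⋃ p ∈ (Finset.univ.filter fun p : Fin n × Fin n => p.1 ≠ p.2),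
        ({ω | v (ω p.1) = u ∧ v (ω p.2) = u ∧ a (ω p.1) = a (ω p.2)} ∪
         {ω | v (ω p.1) = u ∧ v (ω p.2) = u ∧ b (ω p.1) = b (ω p.2)}) := by
    intro ω hω
    simp only [mem_ofPred_eq] at hω
    unfold Jof at hω
    rw [decide_eq_false_iff_not] at hω
    push Not at hω
    obtain ⟨i, j, hi, hj, hij, h⟩ := hω
    simp only [mem_iUnion]
    refine ⟨(i, j), by simp [hij], ?_⟩
    by_cases ha : a (ω i) = a (ω j)
    · exact Or.inl ⟨hi, hj, ha⟩
    · exact Or.inr ⟨hi, hj, h ha⟩
  refine (measureReal_mono hsub (measure_ne_top _ _)).trans ?_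
  refine (measureReal_biUnion_finset_le _ _).trans ?_
  have h1 : ∀ p ∈ (Finset.univ.filter fun p : Fin n × Fin n => p.1 ≠ p.2), (smp P n).real
      ({ω | v (ω p.1) = u ∧ v (ω p.2) = u ∧ a (ω p.1) = a (ω p.2)} ∪
         {ω | v (ω p.1) = u ∧ v (ω p.2) = u ∧ b (ω p.1) = b (ω p.2)}) ≤
      2 / ((D : ℝ) ^ 2 * q) := by
    intro p hp
    rw [Finset.mem_filter] at hp
    refine (measureReal_union_le _ _).trans ?_
    rw [coll_prob hD hq C.mv C.ma (C.pva hq) hp.2 u, coll_prob hD hq C.mv C.mb (C.pvb hq) hp.2 u]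
    apply le_of_eq; ring
  refine (Finset.sum_le_sum h1).trans ?_
  rw [Finset.sum_const, nsmul_eq_mul]
  have h2 : ((Finset.univ.filter fun p : Fin n × Fin n => p.1 ≠ p.2).card : ℝ) ≤ (n : ℝ) ^ 2 := by
    have : (Finset.univ.filter fun p : Fin n × Fin n => p.1 ≠ p.2).card ≤ n ^ 2 := by
      refine (Finset.card_filter_le _ _).trans ?_
      rw [Finset.card_univ, Fintype.card_prod, Fintype.card_fin, sq]
    exact_mod_cast this
  calc _ ≤ (n : ℝ) ^ 2 * (2 / ((D : ℝ) ^ 2 * q)) := by gcongr
    _ = _ := by ring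

/-- number of points in a cell -/
lemma Cells.prob_few (C : Cells P X Y D q v a b g) (hD : 0 < D) (hq : 0 < q) {h : ℕ} (hh : 0 < h)
    (u : Fin D) :
    (smp P (2 * h * D)).real {ω | (Finset.univ.filter fun i => v (ω i) = u).card < h} ≤
      2 / h := by
  classical
  set n := 2 * h * D with hn
  have hDr : (0 : ℝ) < D := by exact_mod_cast hD
  have hhr : (0 : ℝ) < h := by exact_mod_cast hh
  set I : Fin n → (Fin n → S) → ℝ := fun i => indicator {ω | v (ω i) = u} (fun _ => (1 : ℝ)) with hI
  set N : (Fin n → S) → ℝ := fun ω => ∑ i, I i ω with hN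
  have hms : ∀ i : Fin n, MeasurableSet {ω : Fin n → S | v (ω i) = u} := fun i =>
    (C.mv.comp (measurable_pi_apply i)) (measurableSet_singleton u)
  have hIm : ∀ i, Measurable (I i) := fun i => measurable_const.indicator (hms i)
  have hIb : ∀ i ω, ‖I i ω‖ ≤ 1 := by
    intro i ω
    simp only [hI, indicator]
    split_ifs <;> simp
  have hIint : ∀ i, Integrable (I i) (smp P n) := fun i =>
    (integrable_const _).indicator (hms i)
  have hIIint : ∀ i j, Integrable (fun ω => I i ω * I j ω) (smp P n) := fun i j =>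
    (hIint j).bdd_mul (hIm i).aestronglyMeasurable (ae_of_all _ (hIb i))
  have hNcard : ∀ ω, N ω = ((Finset.univ.filter fun i => v (ω i) = u).card : ℝ) := by
    intro ω
    rw [Finset.card_filter]
    push_cast
    refine Finset.sum_congr rfl fun i _ => ?_
    by_cases h1 : v (ω i) = u <;> simp [hI, h1]
  have e1 : ∀ i, ∫ ω, I i ω ∂(smp P n) = 1 / D := by
    intro i
    simp only [hI]
    rw [integral_indicator (hms i), integral_const, smul_eq_mul, mul_one,
      measureReal_restrict_apply_univ, measureReal_def]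
    have h1 : (smp P n) {ω : Fin n → S | v (ω i) = u} = P {s | v s = u} :=
      (measurePreserving_eval (fun _ : Fin n => P) i).measure_preimage
        (C.mv (measurableSet_singleton u)).nullMeasurableSet
    rw [h1, C.pv hq]
    simp
  have e2 : ∀ i j, i ≠ j → ∫ ω, I i ω * I j ω ∂(smp P n) = (1 / D) * (1 / D) := by
    intro i j hij
    have h1 : (fun ω => I i ω * I j ω) = indicator
        {ω : Fin n → S | ω i ∈ {s | v s = u} ∧ ω j ∈ {s | v s = u}} (fun _ => (1 : ℝ)) := by
      funext ω
      simp only [hI, indicator, mem_ofPred_eq]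
      by_cases h1 : v (ω i) = u <;> by_cases h2 : v (ω j) = u <;> simp [h1, h2]
    rw [h1, integral_indicator (show MeasurableSet {ω : Fin n → S | ω i ∈ {s | v s = u} ∧
      ω j ∈ {s | v s = u}} from (hms i).inter (hms j)), integral_const, smul_eq_mul, mul_one,
      measureReal_restrict_apply_univ, measureReal_def]
    have hmu : MeasurableSet {s | v s = u} := C.mv (measurableSet_singleton u)
    rw [pair_prob hij hmu hmu, C.pv hq u, ENNReal.toReal_mul]
    simp
  have e3 : ∀ i, ∫ ω, I i ω * I i ω ∂(smp P n) = 1 / D := by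
    intro i
    rw [← e1 i]
    congr 1
    funext ω
    simp only [hI, indicator]
    split_ifs <;> simp
  have hNint : Integrable N (smp P n) := integrable_finsetSum _ fun i _ => hIint i
  have hN2 : ∀ ω, N ω ^ 2 = ∑ i, ∑ j, I i ω * I j ω := by
    intro ω
    rw [sq, hN, Finset.sum_mul_sum]
  have hN2int : Integrable (fun ω => N ω ^ 2) (smp P n) := by
    simp only [hN2]
    exact integrable_finsetSum _ fun i _ => integrable_finsetSum _ fun j _ => hIIint i j
  have hcard : (n : ℝ) = 2 * h * D := by rw [hn]; push_cast; ring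
  have m1 : ∫ ω, N ω ∂(smp P n) = (2 * h : ℝ) := by
    rw [integral_finsetSum _ fun i _ => hIint i]
    simp only [e1, Finset.sum_const, Finset.card_univ, Fintype.card_fin, nsmul_eq_mul]
    rw [hcard]; field_simp
  have m2 : ∫ ω, N ω ^ 2 ∂(smp P n) ≤ (2 * h : ℝ) + (2 * h : ℝ) ^ 2 := by
    simp only [hN2]
    rw [integral_finsetSum _ fun i _ => integrable_finsetSum _ fun j _ => hIIint i j]
    have h1 : ∀ i, ∫ ω, ∑ j, I i ω * I j ω ∂(smp P n) ≤ 1 / D + n * ((1 / D) * (1 / D)) := by
      intro i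
      rw [integral_finsetSum _ fun j _ => hIIint i j,
        ← Finset.add_sum_erase _ _ (Finset.mem_univ i), e3]
      refine add_le_add le_rfl ?_
      have h2 : ∀ j ∈ Finset.univ.erase i, ∫ ω, I i ω * I j ω ∂(smp P n) =
          (1 / D : ℝ) * (1 / D) := fun j hj => e2 i j (Finset.ne_of_mem_erase hj).symm
      rw [Finset.sum_congr rfl h2, Finset.sum_const, nsmul_eq_mul]
      have h3 : ((Finset.univ.erase i : Finset (Fin n)).card : ℝ) ≤ n := by
        have : (Finset.univ.erase i : Finset (Fin n)).card ≤ n := by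
          refine (Finset.card_le_card (Finset.erase_subset _ _)).trans ?_
          rw [Finset.card_univ, Fintype.card_fin]
        exact_mod_cast this
      gcongr
    refine (Finset.sum_le_sum fun i _ => h1 i).trans ?_
    simp only [Finset.sum_const, Finset.card_univ, Fintype.card_fin, nsmul_eq_mul]
    rw [hcard]
    apply le_of_eq
    field_simp
  have m3 : ∫ ω, (N ω - 2 * (h : ℝ)) ^ 2 ∂(smp P n) ≤ (2 * h : ℝ) := by
    have h1 : ∀ ω, (N ω - 2 * h) ^ 2 = N ω ^ 2 - (4 * h) * N ω + (2 * h : ℝ) ^ 2 := fun ω => by ring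
    simp only [h1]
    have hA : Integrable (fun ω => N ω ^ 2 - (4 * h) * N ω) (smp P n) :=
      hN2int.sub (hNint.const_mul _)
    rw [integral_add hA (integrable_const _),
      integral_sub hN2int (hNint.const_mul _), integral_const_mul, m1, integral_const]
    simp only [probReal_univ, smul_eq_mul, one_mul]
    nlinarith [m2]
  have hint : Integrable (fun ω => (N ω - 2 * h) ^ 2) (smp P n) := by
    have h1 : ∀ ω, (N ω - 2 * h) ^ 2 = N ω ^ 2 - (4 * h) * N ω + (2 * h : ℝ) ^ 2 := fun ω => by ring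
    simp only [h1]
    exact (hN2int.sub (hNint.const_mul _)).add (integrable_const _)
  have h4 := mul_meas_ge_le_integral_of_nonneg (μ := smp P n) (f := fun ω => (N ω - 2 * h) ^ 2)
    (ae_of_all _ fun ω => sq_nonneg _) hint ((h : ℝ) ^ 2)
  have h5 : (smp P n).real {ω | (Finset.univ.filter fun i => v (ω i) = u).card < h} ≤
      (smp P n).real {ω | (h : ℝ) ^ 2 ≤ (N ω - 2 * h) ^ 2} := by
    refine measureReal_mono ?_ (measure_ne_top _ _)
    intro ω hω
    simp only [mem_ofPred_eq] at hω ⊢
    have h6 : N ω ≤ h := by rw [hNcard]; exact_mod_cast hω.le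
    nlinarith
  have h6 : (h : ℝ) ^ 2 * (smp P n).real {ω | (h : ℝ) ^ 2 ≤ (N ω - 2 * h) ^ 2} ≤ 2 * h :=
    h4.trans m3
  refine h5.trans ?_
  rw [le_div_iff₀ hhr]
  have h7 : (h : ℝ) * ((smp P n).real {ω | (h : ℝ) ^ 2 ≤ (N ω - 2 * h) ^ 2} * h) ≤ h * 2 := by
    nlinarith [h6]
  exact le_of_mul_le_mul_left h7 hhr

/-- **Lower bound** for the sampling entropy. -/
theorem ent_lower_bound (C : Cells P X Y D q v a b g) (hD : 0 < D) (hq : 0 < q) {h : ℕ}
    (hh : 0 < h) :
    D * (Real.log (h.factorial : ℝ) * (1 - 8 * (h : ℝ) ^ 2 / q - 2 / h)) ≤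
      ent (smp P (2 * h * D)) (fun ω => pat (fun i => X (ω i)) (fun i => Y (ω i))) := by
  classical
  set n := 2 * h * D with hn
  let _ : MeasurableSpace (Equiv.Perm (Fin n)) := ⊤
  have hf : Measurable (fun ω : Fin n → S => pat (fun i => X (ω i)) (fun i => Y (ω i))) := by
    refine measurable_to_countable' fun p => ?_
    exact measurable_pat (fun i => C.mX.comp (measurable_pi_apply i))
      (fun i => C.mY.comp (measurable_pi_apply i)) p
  have hκ : Measurable (key v a b (n := n)) := measurable_key C.mv C.ma C.mb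
  have h1 := le_ent (Q := smp P n) hf hκ (fun k => (ck k.1 k.2.2 : ℝ))
    (fun k => by exact_mod_cast ck_pos k.1 k.2.2) (fun x k => C.key_bound x k)
  rw [sum_eq_integral (Q := smp P n) hκ (fun k => Real.log (ck k.1 k.2.2 : ℝ))] at h1
  refine le_trans ?_ h1
  set G : Fin D → Set (Fin n → S) := fun u =>
    {ω | (key v a b ω).2.2 u = true ∧ h ≤ (Finset.univ.filter fun i => v (ω i) = u).card} with hG
  have hGm : ∀ u, MeasurableSet (G u) := by
    intro u
    have h2 : G u = (zet v a b (n := n)) ⁻¹' {z | Jof z.1 z.2.1 z.2.2 u = true ∧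
        h ≤ (Finset.univ.filter fun i => z.1 i = u).card} := rfl
    rw [h2]
    exact (measurable_zet C.mv C.ma C.mb) (Set.toFinite _).measurableSet
  have hpt : ∀ ω, ∑ u, indicator (G u) (fun _ => Real.log (h.factorial : ℝ)) ω ≤
      Real.log (ck (key v a b ω).1 (key v a b ω).2.2 : ℝ) := by
    intro ω
    have h3 := log_ck_ge (key v a b ω).1 (key v a b ω).2.2 h
    refine le_trans (le_of_eq ?_) h3
    refine Finset.sum_congr rfl fun u _ => ?_
    by_cases h4 : ω ∈ G u
    · rw [indicator_of_mem h4]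
      exact (if_pos h4).symm
    · rw [indicator_of_notMem h4]
      exact (if_neg h4).symm
  have hLint : Integrable (fun ω => Real.log (ck (key v a b ω).1 (key v a b ω).2.2 : ℝ))
      (smp P n) := by
    have h7 : Integrable (fun k : (Fin n → Fin D) × (Fin n → Fin q) × (Fin D → Bool) =>
        Real.log (ck k.1 k.2.2 : ℝ)) ((smp P n).map (key v a b)) := by
      have := Measure.isProbabilityMeasure_map hκ.aemeasurable (μ := smp P n)
      exact Integrable.of_finite
    exact h7.comp_measurable hκ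
  have hGint : ∀ u, Integrable (indicator (G u) (fun _ => Real.log (h.factorial : ℝ)))
      (smp P n) := fun u => (integrable_const _).indicator (hGm u)
  refine le_trans ?_ (integral_mono (integrable_finsetSum _ fun u _ => hGint u) hLint hpt)
  rw [integral_finsetSum _ fun u _ => hGint u]
  have hD' : (D : ℝ) * (Real.log (h.factorial : ℝ) * (1 - 8 * (h : ℝ) ^ 2 / q - 2 / h)) =
      ∑ u : Fin D, Real.log (h.factorial : ℝ) * (1 - 8 * (h : ℝ) ^ 2 / q - 2 / h) := by
    rw [Finset.sum_const, Finset.card_univ, Fintype.card_fin, nsmul_eq_mul]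
  rw [hD']
  refine Finset.sum_le_sum fun u _ => ?_
  rw [integral_indicator (hGm u), integral_const, smul_eq_mul, measureReal_restrict_apply_univ,
    mul_comm]
  refine mul_le_mul_of_nonneg_right ?_ (Real.log_natCast_nonneg _)
  have h8 : (smp P n).real (G u)ᶜ ≤ 8 * (h : ℝ) ^ 2 / q + 2 / h := by
    have hsub : (G u)ᶜ ⊆ {ω | Jof (fun i => v (ω i)) (fun i => a (ω i)) (fun i => b (ω i)) u =
        false} ∪ {ω | (Finset.univ.filter fun i => v (ω i) = u).card < h} := by
      intro ω hω
      simp only [hG, mem_compl_iff, mem_ofPred_eq, not_and_or, not_le, key] at hω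
      rcases hω with hω | hω
      · left
        simpa using hω
      · right; exact hω
    refine (measureReal_mono hsub (measure_ne_top _ _)).trans ((measureReal_union_le _ _).trans ?_)
    have h9 := C.prob_not_sep hD hq n u
    have h10 := C.prob_few hD hq hh u
    refine add_le_add (h9.trans (le_of_eq ?_)) h10
    rw [hn]
    push_cast
    have hDr : (D : ℝ) ≠ 0 := by exact_mod_cast hD.ne'
    have hqr : (q : ℝ) ≠ 0 := by exact_mod_cast hq.ne'
    field_simp
    ring
  have h9 : (smp P n).real (G u)ᶜ = 1 - (smp P n).real (G u) := by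
    rw [measureReal_compl (hGm u)]; simp
  linarith

end

end Pool.Agent.V11330.PE
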