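import Pool.Agent.V11330.PE.Digits
import Pool.Agent.V11330.PE.Lower2

set_option autoImplicit false

open Set Filter Topology MeasureTheory ProbabilityTheory
open scoped NNReal ENNReal

namespace Pool.Agent.V11330.PE

section swap

/-- the permutation `a q + b ↦ b q + a` -/
def swp (q : ℕ) : Equiv.Perm (Fin (q * q)) :=
  finProdFinEquiv.symm.trans ((Equiv.prodComm _ _).trans finProdFinEquiv)

def hiD {q : ℕ} (x : Fin (q * q)) : Fin q := (finProdFinEquiv.symm x).1

def loD {q : ℕ} (x : Fin (q * q)) : Fin q := (finProdFinEquiv.symm x).2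

lemma hi_lo {q : ℕ} (x : Fin (q * q)) : (x : ℕ) = q * (hiD x : ℕ) + (loD x : ℕ) := by
  have h : finProdFinEquiv (hiD x, loD x) = x := finProdFinEquiv.apply_symm_apply x
  have h1 := congrArg (fun z : Fin (q * q) => (z : ℕ)) h
  simp only [finProdFinEquiv_apply_val] at h1
  omega

lemma swp_val {q : ℕ} (x : Fin (q * q)) : (swp q x : ℕ) = q * (loD x : ℕ) + (hiD x : ℕ) := by
  unfold swp
  simp only [Equiv.trans_apply, Equiv.prodComm_apply, finProdFinEquiv_apply_val, Prod.fst_swap,
    Prod.snd_swap]
  unfold hiD loD
  omega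

/-- the second coordinate -/
noncomputable def yval (q : ℕ) (t : ℕ → Fin (q * q)) : ℝ := dval fun k => swp q (t k)

lemma measurable_yval (q : ℕ) : Measurable (yval q) := by
  unfold yval
  refine measurable_dval.comp (measurable_pi_lambda _ fun k => ?_)
  have h1 : Measurable fun t : ℕ → Fin (q * q) => t k := measurable_pi_apply k
  exact (measurable_of_finite (swp q)).comp h1

lemma order_aux {q m : ℕ} (hq : 2 ≤ q) (t : ℕ → Fin (q * q)) (ht : dval (fun k => t (k + (m + 1))) < 1)
    {a b : ℕ} (hb : b < q) (hab : (t m : ℕ) = q * a + b) :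
    (q * (dnum t m : ℕ) + a : ℝ) ≤ q * ((q * q) ^ m : ℕ) * dval t ∧
    q * ((q * q) ^ m : ℕ) * dval t < (q * (dnum t m : ℕ) + a : ℝ) + 1 := by
  have hd : 2 ≤ q * q := by nlinarith
  have h1 := dval_num hd t m
  have h2 := dval_shift hd (fun k => t (k + m))
  have e : (fun k => t (k + 1 + m)) = fun k => t (k + (m + 1)) := by
    funext k; congr 1; ring
  simp only [zero_add] at h2
  rw [e, hab] at h2
  have hqr : (0 : ℝ) < q := by exact_mod_cast (by omega : 0 < q)
  have h0 := dval_nonneg (fun k => t (k + (m + 1)))
  have hbr : (b : ℝ) + 1 ≤ q := by exact_mod_cast hb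
  have hb0 : (0 : ℝ) ≤ b := Nat.cast_nonneg _
  push_cast at h1 h2 ⊢
  set r := dval (fun k => t (k + (m + 1))) with hr
  set s := dval (fun k => t (k + m)) with hs
  have h3 : (q : ℝ) * s = a + (b + r) / q := by
    field_simp
    nlinarith [h2]
  have h4 : (q : ℝ) * ((q : ℝ) * q) ^ m * dval t = q * dnum t m + (a + (b + r) / q) := by
    rw [mul_assoc, h1, mul_add, h3]
  rw [h4]
  have h5 : 0 ≤ (b + r) / q := by positivity
  have h6 : (b + r) / q < 1 := by rw [div_lt_one hqr]; linarith
  constructor <;> linarith

variable {q : ℕ} [NeZero q]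

instance : NeZero (q * q) := ⟨mul_ne_zero (NeZero.ne q) (NeZero.ne q)⟩

theorem cells (hq : 2 ≤ q) (m : ℕ) : Cells (PD (q * q)) dval (yval q) ((q * q) ^ m) q (dcell m)
    (fun t => hiD (t m)) (fun t => loD (t m)) (gperm (swp q) m) := by
  have hd : 2 ≤ q * q := by nlinarith
  have hmk : ∀ k : ℕ, Measurable fun t : ℕ → Fin (q * q) => t k := fun k => measurable_pi_apply k
  refine ⟨measurable_dval, measurable_yval q, ?_, ?_, ?_, ?_, ?_, ?_⟩
  · unfold dcell
    have h1 : Measurable fun t : ℕ → Fin (q * q) => (fun i : Fin m => t (m - 1 - i)) :=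
      measurable_pi_lambda _ fun i => hmk _
    exact (measurable_of_finite (finFunctionFinEquiv (m := q * q) (n := m))).comp h1
  · exact (measurable_of_finite hiD).comp (hmk m)
  · exact (measurable_of_finite loD).comp (hmk m)
  · intro u i j
    have h1 : {t : ℕ → Fin (q * q) | dcell m t = u ∧ hiD (t m) = i ∧ loD (t m) = j} =
        {t | ∀ k : Fin (m + 1), t k = (fun k : Fin (m + 1) => if h : (k : ℕ) < m then
          (finFunctionFinEquiv.symm u) ⟨m - 1 - k, by omega⟩ else finProdFinEquiv (i, j)) k} := by
      ext t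
      simp only [mem_ofPred_eq]
      constructor
      · rintro ⟨h1, h2, h3⟩ k
        by_cases hk : (k : ℕ) < m
        · rw [dif_pos hk, ← h1]
          unfold dcell
          rw [Equiv.symm_apply_apply]
          simp only
          congr 1
          omega
        · rw [dif_neg hk]
          have hkm : (k : ℕ) = m := by have := k.2; omega
          rw [hkm, ← h2, ← h3]
          exact (finProdFinEquiv.apply_symm_apply (t m)).symm
      · intro h
        have hm := h ⟨m, by omega⟩
        simp only [lt_irrefl, dif_neg, not_false_iff] at hm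
        refine ⟨?_, ?_, ?_⟩
        · unfold dcell
          rw [← Equiv.eq_symm_apply]
          funext l
          have := h ⟨m - 1 - l, by omega⟩
          have hl : m - 1 - (l : ℕ) < m := by have := l.2; omega
          simp only at this
          rw [dif_pos hl] at this
          rw [this]
          have e : (⟨m - 1 - (m - 1 - (l : ℕ)), by omega⟩ : Fin m) = l := by
            apply Fin.ext
            have := l.2
            show m - 1 - (m - 1 - (l : ℕ)) = l
            omega
          rw [e]
        · unfold hiD; rw [hm]; simp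
        · unfold loD; rw [hm]; simp
    rw [h1, PD_cyl]
    simp only [one_div]
    rw [← ENNReal.inv_pow]
    congr 1
    push_cast
    rw [pow_succ]
    ring
  · filter_upwards [ae_dval_lt hd (Equiv.refl _)] with t ht
    have h1 := order_aux (m := m) hq t (ht (m + 1)) (loD (t m)).2 (hi_lo (t m))
    rw [dcell_val]
    exact h1
  · filter_upwards [ae_dval_lt hd (swp q)] with t ht
    have h1 := order_aux (m := m) hq (fun k => swp q (t k)) (ht (m + 1)) (hiD (t m)).2
      (swp_val (t m))
    rw [gperm_dcell, dcell_val]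
    exact h1

end swap

end Pool.Agent.V11330.PE
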