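import Pool.Agent.V11330.PE.Cell

set_option autoImplicit false

open Set Filter Topology MeasureTheory ProbabilityTheory
open scoped NNReal ENNReal

namespace Pool.Agent.V11330.PE

/-! ### counting -/

lemma card_monotone_le (n D : ℕ) :
    (Finset.univ.filter fun k : Fin n → Fin D => Monotone k).card ≤ 2 ^ (n + D) := by
  classical
  have h : (Finset.univ.filter fun k : Fin n → Fin D => Monotone k).card ≤
      (Finset.range (n + D)).powerset.card := by
    refine Finset.card_le_card_of_injOn
      (fun k => Finset.univ.image fun i : Fin n => (k i : ℕ) + (i : ℕ)) ?_ ?_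
    · intro k _
      simp only [Finset.coe_powerset, mem_preimage, mem_powerset_iff, Finset.coe_subset]
      intro x hx
      obtain ⟨i, _, rfl⟩ := Finset.mem_image.1 hx
      rw [Finset.mem_range]
      have := (k i).2
      have := i.2
      omega
    · intro k hk k' hk' heq
      have hk := (Finset.mem_filter.1 (Finset.mem_coe.1 hk)).2
      have hk' := (Finset.mem_filter.1 (Finset.mem_coe.1 hk')).2
      have hsm : ∀ k : Fin n → Fin D, Monotone k → StrictMono fun i : Fin n => (k i : ℕ) + (i : ℕ) := by
        intro k hk i j hij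
        have h1 : (k i : ℕ) ≤ k j := hk hij.le
        have h2 : (i : ℕ) < j := hij
        show (k i : ℕ) + (i : ℕ) < (k j : ℕ) + (j : ℕ)
        omega
      have h1 : range (fun i : Fin n => (k i : ℕ) + (i : ℕ)) =
          range (fun i : Fin n => (k' i : ℕ) + (i : ℕ)) := by
        have := congrArg (fun s : Finset ℕ => (s : Set ℕ)) heq
        simpa using this
      have h2 := (StrictMono.range_inj (hsm k hk) (hsm k' hk')).1 h1
      funext i
      have := congrFun h2 i
      apply Fin.ext
      omega
  rwa [Finset.card_powerset, Finset.card_range] at h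

/-- the permutations compatible with a cell sequence -/
noncomputable def compat {n D : ℕ} (g : Equiv.Perm (Fin D)) (k : Fin n → Fin D) :
    Finset (Equiv.Perm (Fin n)) :=
  Finset.univ.filter fun p => ∀ i, (g ∘ k) (Tuple.sort (g ∘ k) (p i)) = g (k i)

lemma card_compat_le {n D : ℕ} (g : Equiv.Perm (Fin D)) (k : Fin n → Fin D) :
    (compat g k).card ≤ ∏ i, (Finset.univ.filter fun j => k j = k i).card := by
  classical
  have h1 : (compat g k).card ≤ (Fintype.piFinset fun i : Fin n => Finset.univ.filter
      fun j : Fin n => (g ∘ k) (Tuple.sort (g ∘ k) j) = g (k i)).card := by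
    refine Finset.card_le_card_of_injOn (fun p => (p : Fin n → Fin n)) ?_ ?_
    · intro p hp
      have hp := (Finset.mem_filter.1 (Finset.mem_coe.1 hp)).2
      rw [Finset.mem_coe, Fintype.mem_piFinset]
      intro i
      rw [Finset.mem_filter]
      exact ⟨Finset.mem_univ _, hp i⟩
    · intro p _ p' _ heq
      exact DFunLike.coe_injective heq
  refine h1.trans (le_of_eq ?_)
  rw [Fintype.card_piFinset]
  refine Finset.prod_congr rfl fun i _ => ?_
  refine Finset.card_bij (fun j _ => Tuple.sort (g ∘ k) j) ?_ ?_ ?_
  · intro j hj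
    rw [Finset.mem_filter] at hj ⊢
    exact ⟨Finset.mem_univ _, g.injective hj.2⟩
  · intro j _ j' _ h
    exact (Tuple.sort (g ∘ k)).injective h
  · intro j hj
    refine ⟨(Tuple.sort (g ∘ k)).symm j, ?_, by simp⟩
    rw [Finset.mem_filter] at hj ⊢
    refine ⟨Finset.mem_univ _, ?_⟩
    simp [hj.2]

section

variable {S : Type*} [MeasurableSpace S] {P : Measure S} [IsProbabilityMeasure P]
  {X Y : S → ℝ} {D q : ℕ} {v : S → Fin D} {a b : S → Fin q} {g : Equiv.Perm (Fin D)}

/-- the cells listed by increasing `X` -/
noncomputable def kap (X : S → ℝ) (v : S → Fin D) {n : ℕ} (ω : Fin n → S) : Fin n → Fin D :=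
  fun i => v (ω (Tuple.sort (fun j => X (ω j)) i))

lemma kap_mono {n : ℕ} {ω : Fin n → S} (h : ∀ i, Good X Y D q v a b g (ω i)) :
    Monotone (kap X v ω) := by
  intro i j hij
  have hs := Tuple.monotone_sort (fun j => X (ω j)) hij
  simp only [Function.comp_apply] at hs
  set τ := Tuple.sort (fun j => X (ω j))
  have h1 := code_le (h (τ i)).1 (h (τ j)).1 hs
  have h2 := Nat.div_le_div_right (c := q) h1
  rw [code_div (a (ω (τ i))).2, code_div (a (ω (τ j))).2] at h2
  exact h2

lemma pat_mem_compat {n : ℕ} {ω : Fin n → S} (h : ∀ i, Good X Y D q v a b g (ω i)) :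
    pat (fun i => X (ω i)) (fun i => Y (ω i)) ∈ compat g (kap X v ω) := by
  set τ := Tuple.sort (fun j => X (ω j)) with hτ
  set p := pat (fun i => X (ω i)) (fun i => Y (ω i)) with hp
  have hY : Monotone (fun i => Y (ω (τ (p⁻¹ i)))) := by
    have h1 := Tuple.monotone_sort ((fun i => Y (ω i)) ∘ τ)
    have h2 : p⁻¹ = Tuple.sort ((fun i => Y (ω i)) ∘ τ) := by rw [hp]; unfold pat; rw [inv_inv]
    rw [h2]
    exact h1
  have hmono : Monotone ((g ∘ kap X v ω) ∘ (p⁻¹ : Equiv.Perm (Fin n))) := by
    intro i j hij
    have h1 := code_le (h (τ (p⁻¹ i))).2 (h (τ (p⁻¹ j))).2 (hY hij)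
    have h2 := Nat.div_le_div_right (c := q) h1
    rw [code_div (b (ω (τ (p⁻¹ i)))).2, code_div (b (ω (τ (p⁻¹ j)))).2] at h2
    exact h2
  have huniq := Tuple.unique_monotone hmono (Tuple.monotone_sort (g ∘ kap X v ω))
  unfold compat
  rw [Finset.mem_filter]
  refine ⟨Finset.mem_univ _, fun i => ?_⟩
  have := congrFun huniq (p i)
  have hinv : (p⁻¹ : Equiv.Perm (Fin n)) (p i) = i := p.symm_apply_apply i
  simp only [Function.comp_apply, hinv] at this
  simp only [Function.comp_apply]
  exact this.symm

lemma measurable_kap {n : ℕ} (hX : Measurable X) (hv : Measurable v) :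
    Measurable (fun ω : Fin n → S => kap X v ω) := by
  refine measurable_pi_lambda _ fun i => ?_
  have h1 : ∀ τ : Equiv.Perm (Fin n), MeasurableSet {ω : Fin n → S |
      Tuple.sort (fun j => X (ω j)) = τ} := fun τ =>
    measurable_sort (fun j => hX.comp (measurable_pi_apply j)) τ
  refine measurable_to_countable' fun u => ?_
  have : (fun ω : Fin n → S => kap X v ω i) ⁻¹' {u} =
      ⋃ τ : Equiv.Perm (Fin n), {ω : Fin n → S | Tuple.sort (fun j => X (ω j)) = τ} ∩
        {ω | v (ω (τ i)) = u} := by
    ext ω
    simp only [mem_preimage, mem_singleton_iff, mem_iUnion, mem_inter_iff, mem_ofPred_eq,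
      exists_eq_left']
    rfl
  rw [this]
  exact MeasurableSet.iUnion fun τ => (h1 τ).inter
    ((hv.comp (measurable_pi_apply (τ i))) (measurableSet_singleton u))

lemma sum_eq_integral {Ω K : Type*} [MeasurableSpace Ω] {Q : Measure Ω} [IsProbabilityMeasure Q]
    [Fintype K] [MeasurableSpace K] [MeasurableSingletonClass K] {κ : Ω → K} (hκ : Measurable κ)
    (Φ : K → ℝ) : ∑ k, Q.real {ω | κ ω = k} * Φ k = ∫ ω, Φ (κ ω) ∂Q := by
  have hc := hκ
  have := Measure.isProbabilityMeasure_map hc.aemeasurable (μ := Q)
  rw [← integral_map hc.aemeasurable (measurable_of_finite Φ).aestronglyMeasurable,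
    integral_fintype Integrable.of_finite]
  refine Finset.sum_congr rfl fun k _ => ?_
  rw [measureReal_def, measureReal_def, Measure.map_apply hc (measurableSet_singleton k), smul_eq_mul]
  rfl

/-- **Upper bound** for the sampling entropy. -/
theorem ent_upper_bound (C : Cells P X Y D q v a b g) (hq : 0 < q) (n : ℕ) :
    ent (smp P n) (fun ω => pat (fun i => X (ω i)) (fun i => Y (ω i))) ≤
      (n + D) * Real.log 2 + (n : ℝ) ^ 2 / D := by
  classical
  letI : MeasurableSpace (Equiv.Perm (Fin n)) := ⊤
  have hgood := ae_smp (n := n) C.good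
  have hf : Measurable (fun ω : Fin n → S => pat (fun i => X (ω i)) (fun i => Y (ω i))) := by
    refine measurable_to_countable' fun p => ?_
    exact measurable_pat (fun i => C.mX.comp (measurable_pi_apply i))
      (fun i => C.mY.comp (measurable_pi_apply i)) p
  have hκ : Measurable (fun ω : Fin n → S => kap X v ω) := measurable_kap C.mX C.mv
  have h1 := ent_le (Q := smp P n) hf hκ
    (Finset.univ.filter fun k : Fin n → Fin D => Monotone k) ?_
    (fun k => ∏ i, (Finset.univ.filter fun j => k j = k i).card) (fun k => compat g k) ?_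
    (fun k => card_compat_le g k)
  rotate_left
  · filter_upwards [hgood] with ω hω
    rw [Finset.mem_filter]
    exact ⟨Finset.mem_univ _, kap_mono hω⟩
  · filter_upwards [hgood] with ω hω
    exact pat_mem_compat hω
  refine h1.trans ?_
  refine add_le_add ?_ ?_
  · rcases Nat.eq_zero_or_pos (Finset.univ.filter fun k : Fin n → Fin D => Monotone k).card with h0 | h0
    · rw [h0]
      simp only [Nat.cast_zero, Real.log_zero]
      have := Real.log_nonneg (one_le_two (α := ℝ))
      positivity
    · have h2 : ((Finset.univ.filter fun k : Fin n → Fin D => Monotone k).card : ℝ) ≤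
          (2 : ℝ) ^ (n + D) := by exact_mod_cast card_monotone_le n D
      have h3 := Real.log_le_log (by exact_mod_cast h0) h2
      rw [Real.log_pow] at h3
      push_cast at h3
      exact h3
  · rw [sum_eq_integral (Q := smp P n) hκ
      (fun k => Real.log ((∏ i, (Finset.univ.filter fun j => k j = k i).card : ℕ) : ℝ))]
    -- pointwise bound
    set N : (Fin n → S) → ℝ := fun ω =>
      ∑ i, ∑ j ∈ Finset.univ.erase i, indicator {ω : Fin n → S | v (ω i) = v (ω j)} (fun _ => (1 : ℝ)) ω
      with hN
    have hpt : ∀ ω, Real.log ((∏ i, (Finset.univ.filter fun j => kap X v ω j = kap X v ω i).card : ℕ) : ℝ)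
        ≤ N ω := by
      intro ω
      set τ := Tuple.sort (fun j => X (ω j)) with hτ
      have e1 : ∀ i, (Finset.univ.filter fun j => kap X v ω j = kap X v ω i).card =
          (Finset.univ.filter fun j => v (ω j) = v (ω (τ i))).card := by
        intro i
        refine Finset.card_bij (fun j _ => τ j) ?_ ?_ ?_
        · intro j hj
          rw [Finset.mem_filter] at hj ⊢
          exact ⟨Finset.mem_univ _, hj.2⟩
        · intro j _ j' _ h
          exact τ.injective h
        · intro j hj
          refine ⟨τ.symm j, ?_, by simp⟩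
          rw [Finset.mem_filter] at hj ⊢
          refine ⟨Finset.mem_univ _, ?_⟩
          show v (ω (τ (τ.symm j))) = v (ω (τ i))
          rw [Equiv.apply_symm_apply]; exact hj.2
      have e2 : ∏ i, (Finset.univ.filter fun j => kap X v ω j = kap X v ω i).card =
          ∏ i, (Finset.univ.filter fun j => v (ω j) = v (ω i)).card := by
        rw [Finset.prod_congr rfl fun i _ => e1 i]
        exact Equiv.prod_comp τ (fun i => (Finset.univ.filter fun j => v (ω j) = v (ω i)).card)
      rw [e2]
      push_cast
      have hpos : ∀ i, 0 < (Finset.univ.filter fun j => v (ω j) = v (ω i)).card := fun i =>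
        Finset.card_pos.2 ⟨i, by simp⟩
      rw [Real.log_prod fun i _ => by exact_mod_cast (hpos i).ne']
      refine Finset.sum_le_sum fun i _ => ?_
      have h4 : Real.log ((Finset.univ.filter fun j => v (ω j) = v (ω i)).card : ℝ) ≤
          ((Finset.univ.filter fun j => v (ω j) = v (ω i)).card : ℝ) - 1 :=
        Real.log_le_sub_one_of_pos (by exact_mod_cast hpos i)
      refine h4.trans (le_of_eq ?_)
      have h5 : ((Finset.univ.filter fun j => v (ω j) = v (ω i)).card : ℝ) =
          ∑ j, if v (ω j) = v (ω i) then (1 : ℝ) else 0 := by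
        rw [Finset.sum_boole]
      rw [h5, ← Finset.add_sum_erase _ _ (Finset.mem_univ i), if_pos rfl, add_sub_cancel_left]
      refine Finset.sum_congr rfl fun j _ => ?_
      simp only [indicator, mem_ofPred_eq]
      by_cases h6 : v (ω j) = v (ω i)
      · rw [if_pos h6, if_pos h6.symm]
      · rw [if_neg h6, if_neg (fun h => h6 h.symm)]
    have hms : ∀ i j : Fin n, MeasurableSet {ω : Fin n → S | v (ω i) = v (ω j)} := fun i j =>
      measurableSet_eq_fun (C.mv.comp (measurable_pi_apply i)) (C.mv.comp (measurable_pi_apply j))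
    have hint : ∀ i j : Fin n, Integrable
        (indicator {ω : Fin n → S | v (ω i) = v (ω j)} (fun _ => (1 : ℝ))) (smp P n) := fun i j =>
      (integrable_const _).indicator (hms i j)
    have hNint : Integrable N (smp P n) :=
      integrable_finsetSum _ fun i _ => integrable_finsetSum _ fun j _ => hint i j
    have hLint : Integrable (fun ω => Real.log
        ((∏ i, (Finset.univ.filter fun j => kap X v ω j = kap X v ω i).card : ℕ) : ℝ)) (smp P n) := by
      have h7 : Integrable (fun k : Fin n → Fin D => Real.log
        ((∏ i, (Finset.univ.filter fun j => k j = k i).card : ℕ) : ℝ)) ((smp P n).map (kap X v)) := by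
        have := Measure.isProbabilityMeasure_map hκ.aemeasurable (μ := smp P n)
        exact Integrable.of_finite
      exact h7.comp_measurable hκ
    refine (integral_mono hLint hNint hpt).trans ?_
    simp only [hN]
    rw [integral_finsetSum _ fun i _ => integrable_finsetSum _ fun j _ => hint i j]
    have h8 : ∀ i, ∫ ω, ∑ j ∈ Finset.univ.erase i,
        indicator {ω : Fin n → S | v (ω i) = v (ω j)} (fun _ => (1 : ℝ)) ω ∂(smp P n) =
        ∑ j ∈ Finset.univ.erase i, (1 / D : ℝ) := by
      intro i
      rw [integral_finsetSum _ fun j _ => hint i j]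
      refine Finset.sum_congr rfl fun j hj => ?_
      rw [integral_indicator (hms i j), integral_const, smul_eq_mul, mul_one, measureReal_restrict_apply_univ]
      have hij : i ≠ j := (Finset.ne_of_mem_erase hj).symm
      have h9 : {ω : Fin n → S | v (ω i) = v (ω j)} =
          ⋃ u ∈ (Finset.univ : Finset (Fin D)), {ω | ω i ∈ {s | v s = u} ∧ ω j ∈ {s | v s = u}} := by
        ext ω; simp [eq_comm]
      have hmu : ∀ u : Fin D, MeasurableSet {s | v s = u} := fun u =>
        C.mv (measurableSet_singleton u)
      have h10 : (smp P n) {ω : Fin n → S | v (ω i) = v (ω j)} = 1 / D := by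
        rw [h9, measure_biUnion_finset]
        · have h11 : ∀ u ∈ (Finset.univ : Finset (Fin D)),
              (smp P n) {ω | ω i ∈ {s | v s = u} ∧ ω j ∈ {s | v s = u}} = (1 / D) * (1 / D) := by
            intro u _
            rw [pair_prob hij (hmu u) (hmu u), C.pv hq u]
          rw [Finset.sum_congr rfl h11, Finset.sum_const, Finset.card_univ, Fintype.card_fin,
            nsmul_eq_mul]
          rcases Nat.eq_zero_or_pos D with h0 | h0
          · obtain ⟨s0⟩ : Nonempty S := P.nonempty_of_neZero
            have := (v s0).2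
            omega
          · have hD : (D : ℝ≥0∞) ≠ 0 := by exact_mod_cast h0.ne'
            rw [← mul_assoc, one_div, ENNReal.mul_inv_cancel hD (by simp), one_mul]
        · intro u _ u' _ hne
          rw [Function.onFun, Set.disjoint_left]
          rintro ω ⟨h1, _⟩ ⟨h2, _⟩
          exact hne (h1.symm.trans h2)
        · intro u _
          have hi : Measurable fun ω : Fin n → S => ω i := measurable_pi_apply i
          have hj' : Measurable fun ω : Fin n → S => ω j := measurable_pi_apply j
          exact (hi (hmu u)).inter (hj' (hmu u))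
      rw [measureReal_def, h10]
      simp
    rw [Finset.sum_congr rfl fun i _ => h8 i]
    simp only [Finset.sum_const, Finset.card_erase_of_mem (Finset.mem_univ _), Finset.card_univ,
      Fintype.card_fin, nsmul_eq_mul]
    have h12 : ((n - 1 : ℕ) : ℝ) ≤ n := by exact_mod_cast Nat.sub_le n 1
    calc (n : ℝ) * (((n - 1 : ℕ) : ℝ) * (1 / D)) ≤ n * (n * (1 / D)) := by gcongr
      _ = (n : ℝ) ^ 2 / D := by ring

end

end Pool.Agent.V11330.PE
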